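import Pool.Agent.Lib_helper34.TSS.Defs

/-!
MP_fada92_co.ThinSlabs: greedy colouring and Kempe argument (text of helper73, unchanged)
-/

set_option autoImplicit false

namespace Pool.Agent.Results.MP_fada92_co.ThinSlabs

open Metric

/-! ### Greedy colouring -/

theorem colorable_of_small {ι : Type} [Finite ι] (G : SimpleGraph ι) (m : ℕ)
    (H : ∀ s : Finset ι, s.Nonempty → ∃ v ∈ s, ∀ t : Finset ι, (∀ w ∈ t, w ∈ s ∧ G.Adj v w) →
      t.card ≤ m) : G.Colorable (m + 1) := by
  classical
  have : Fintype ι := Fintype.ofFinite ι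
  have key : ∀ n : ℕ, ∀ s : Finset ι, s.card = n →
      ∃ f : ι → Fin (m + 1), ∀ i ∈ s, ∀ j ∈ s, G.Adj i j → f i ≠ f j := by
    intro n
    induction n with
    | zero =>
      intro s hs
      rw [Finset.card_eq_zero] at hs
      subst hs
      exact ⟨fun _ => 0, fun i hi => absurd hi (Finset.notMem_empty i)⟩
    | succ n ih =>
      intro s hs
      obtain ⟨v, hv, h⟩ := H s (Finset.card_pos.1 (by omega))
      obtain ⟨f, hf⟩ := ih (s.erase v) (by rw [Finset.card_erase_of_mem hv]; omega)
      have h1 := h (s.filter fun w => G.Adj v w) (fun w hw => Finset.mem_filter.1 hw)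
      have h2 : ((s.filter fun w => G.Adj v w).image f).card < Fintype.card (Fin (m + 1)) := by
        rw [Fintype.card_fin]
        exact lt_of_le_of_lt Finset.card_image_le (by omega)
      obtain ⟨a, ha⟩ : ∃ a, a ∉ (s.filter fun w => G.Adj v w).image f := by
        by_contra hcon
        push Not at hcon
        have : (s.filter fun w => G.Adj v w).image f = Finset.univ :=
          Finset.eq_univ_iff_forall.2 hcon
        rw [this, Finset.card_univ] at h2
        omega
      refine ⟨fun i => if i = v then a else f i, fun i hi j hj hij => ?_⟩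
      have ha' : ∀ w ∈ s, G.Adj v w → f w ≠ a := by
        intro w hw hvw he
        exact ha (Finset.mem_image.2 ⟨w, Finset.mem_filter.2 ⟨hw, hvw⟩, he⟩)
      by_cases h3 : i = v
      · subst h3
        have h4 : j ≠ i := fun h => G.ne_of_adj hij h.symm
        simp only [if_true, if_neg h4]
        exact (ha' j hj hij).symm
      · by_cases h4 : j = v
        · subst h4
          simp only [if_true, if_neg h3]
          exact ha' i hi hij.symm
        · simp only [if_neg h3, if_neg h4]
          exact hf i (Finset.mem_erase.2 ⟨h3, hi⟩) j (Finset.mem_erase.2 ⟨h4, hj⟩) hij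
  obtain ⟨f, hf⟩ := key _ Finset.univ rfl
  exact ⟨SimpleGraph.Coloring.mk f fun {i j} h => hf i (Finset.mem_univ i) j (Finset.mem_univ j) h⟩

/-! ### Points in a half plane -/

/-- The argument of a lexicographically positive complex number. -/
theorem arg_mem {z : ℂ} (h : 0 < z.re ∨ (z.re = 0 ∧ 0 < z.im)) :
    -(Real.pi / 2) < z.arg ∧ z.arg ≤ Real.pi / 2 := by
  have h0 : 0 ≤ z.re := by
    rcases h with h | h
    · exact h.le
    · exact h.1.ge
  have h1 := abs_le.1 (Complex.abs_arg_le_pi_div_two_iff.2 h0)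
  refine ⟨lt_of_le_of_ne h1.1 fun h2 => ?_, h1.2⟩
  have h3 := Complex.arg_eq_neg_pi_div_two_iff.1 h2.symm
  rcases h with h | h
  · linarith [h3.1]
  · linarith [h3.2, h.2]

/-- Lexicographically positive numbers with mutual angles of at least `π / m`. -/
theorem card_le {ι : Type} (t : Finset ι) (z : ι → ℂ) (m : ℕ) (hm : 1 ≤ m)
    (hz : ∀ i ∈ t, 0 < (z i).re ∨ ((z i).re = 0 ∧ 0 < (z i).im))
    (hc : ∀ i ∈ t, ∀ j ∈ t, i ≠ j →
      (z i).re * (z j).re + (z i).im * (z j).im ≤ Real.cos (Real.pi / m) * (‖z i‖ * ‖z j‖)) :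
    t.card ≤ m := by
  classical
  have hm0 : (0 : ℝ) < m := by exact_mod_cast hm
  have hpi := Real.pi_pos
  have hd : 0 < Real.pi / m := div_pos hpi hm0
  -- the number of the sector
  let F : ι → ℤ := fun i => ⌈((z i).arg + Real.pi / 2) / (Real.pi / m)⌉
  have hF : ∀ i ∈ t, F i ∈ Finset.Icc (1 : ℤ) m := by
    intro i hi
    obtain ⟨h1, h2⟩ := arg_mem (hz i hi)
    rw [Finset.mem_Icc]
    constructor
    · have : 0 < F i := Int.ceil_pos.2 (div_pos (by linarith) hd)
      omega
    · refine Int.ceil_le.2 ?_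
      rw [div_le_iff₀ hd]
      push_cast
      rw [mul_div_cancel₀ _ hm0.ne']
      linarith
  have hinj : Set.InjOn F t := by
    intro i hi j hj hij
    by_contra hne
    have h1 := hc i hi j hj hne
    have hpos : ∀ k ∈ t, 0 < ‖z k‖ := by
      intro k hk
      rw [norm_pos_iff]
      intro h0
      rcases hz k hk with h | h
      · rw [h0] at h; simp at h
      · rw [h0] at h; simp at h
    -- the arguments differ by less than `π / m`
    have a1 := Int.ceil_lt_add_one (((z i).arg + Real.pi / 2) / (Real.pi / m))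
    have a2 := Int.le_ceil (((z i).arg + Real.pi / 2) / (Real.pi / m))
    have b1 := Int.ceil_lt_add_one (((z j).arg + Real.pi / 2) / (Real.pi / m))
    have b2 := Int.le_ceil (((z j).arg + Real.pi / 2) / (Real.pi / m))
    have e1 : (⌈((z i).arg + Real.pi / 2) / (Real.pi / m)⌉ : ℝ) =
        ⌈((z j).arg + Real.pi / 2) / (Real.pi / m)⌉ := by
      have : F i = F j := hij
      simp only [F] at this
      rw [this]
    have c1 : |((z i).arg + Real.pi / 2) / (Real.pi / m) - ((z j).arg + Real.pi / 2) / (Real.pi / m)|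
        < 1 := by
      rw [abs_lt]
      constructor <;> linarith
    have c2 : |(z i).arg - (z j).arg| < Real.pi / m := by
      have : ((z i).arg + Real.pi / 2) / (Real.pi / m) - ((z j).arg + Real.pi / 2) / (Real.pi / m) =
          ((z i).arg - (z j).arg) / (Real.pi / m) := by ring
      rw [this, abs_div, abs_of_pos hd, div_lt_one hd] at c1
      exact c1
    have c3 : Real.pi / m ≤ Real.pi := by
      rw [div_le_iff₀ hm0]
      have : (1 : ℝ) ≤ m := by exact_mod_cast hm
      nlinarith
    have c4 : Real.cos (Real.pi / m) < Real.cos ((z i).arg - (z j).arg) := by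
      rw [← Real.cos_abs ((z i).arg - (z j).arg)]
      exact Real.cos_lt_cos_of_nonneg_of_le_pi (abs_nonneg _) c3 c2
    have hi0 : z i ≠ 0 := norm_pos_iff.1 (hpos i hi)
    have hj0 : z j ≠ 0 := norm_pos_iff.1 (hpos j hj)
    have c5 : Real.cos ((z i).arg - (z j).arg) * (‖z i‖ * ‖z j‖) =
        (z i).re * (z j).re + (z i).im * (z j).im := by
      rw [Real.cos_sub, Complex.cos_arg hi0, Complex.cos_arg hj0, Complex.sin_arg, Complex.sin_arg]
      have h5 := (hpos i hi).ne'
      have h6 := (hpos j hj).ne'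
      field_simp
    have c6 := mul_lt_mul_of_pos_right c4 (mul_pos (hpos i hi) (hpos j hj))
    linarith
  have h2 := Finset.card_le_card_of_injOn F hF hinj
  rw [Int.card_Icc] at h2
  omega

/-! ### Winding numbers of polygons -/

/-- The quotient is in the slit plane unless `x` lies between `u` and `w`. -/
theorem slit {x u w : ℂ} (hx : x ∉ segment ℝ u w) : (w - x) / (u - x) ∈ Complex.slitPlane := by
  have hu : u - x ≠ 0 := fun h => hx (by
    have : u = x := sub_eq_zero.1 h
    rw [← this]; exact left_mem_segment ℝ u w)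
  rw [Complex.mem_slitPlane_iff]
  by_contra hcon
  push Not at hcon
  obtain ⟨h1, h2⟩ := hcon
  obtain ⟨z, hz⟩ : ∃ z, z = (w - x) / (u - x) := ⟨_, rfl⟩
  rw [← hz] at h1 h2
  obtain ⟨l, hl⟩ : ∃ l : ℝ, l = -z.re := ⟨_, rfl⟩
  have hl0 : 0 ≤ l := by rw [hl]; linarith
  have h3 : z = -(l : ℂ) := by
    apply Complex.ext
    · simp [hl]
    · simp [h2]
  have h4 : w - x = -(l : ℂ) * (u - x) := by
    rw [← h3, hz, div_mul_cancel₀ _ hu]
  apply hx
  have hl1 : (1 + l : ℝ) ≠ 0 := by positivity
  have hl2 : (1 + l : ℂ) ≠ 0 := by exact_mod_cast hl1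
  refine ⟨l / (1 + l), 1 / (1 + l), by positivity, by positivity, by field_simp; ring, ?_⟩
  have h5 : (1 + l : ℂ) * x = l * u + w := by linear_combination -h4
  rw [Complex.real_smul, Complex.real_smul]
  push_cast
  field_simp
  linear_combination -h5

/-- The angle swept by a walk, as a function of the view point. -/
theorem angle_fun {ι : Type} (G : SimpleGraph ι) (p : ι → ℂ) (A : Set ι) {a b : ι}
    (h : Relation.ReflTransGen (fun i j => G.Adj i j ∧ i ∈ A ∧ j ∈ A) a b) :
    ∃ F : ℂ → ℝ, ∀ x : ℂ, (∀ i ∈ A, ∀ j ∈ A, G.Adj i j → x ∉ segment ℝ (p i) (p j)) →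
      ContinuousAt F x ∧ Complex.exp (F x * Complex.I) * ((p a - x) * ‖p b - x‖) =
        (p b - x) * ‖p a - x‖ := by
  induction h with
  | refl => exact ⟨fun _ => 0, fun x _ => ⟨continuousAt_const, by simp⟩⟩
  | @tail b c _ hbc ih =>
    obtain ⟨F, hF⟩ := ih
    refine ⟨fun x => F x + ((p c - x) / (p b - x)).arg, fun x hx => ?_⟩
    obtain ⟨h1, h2⟩ := hF x hx
    have h3 := hx b hbc.2.1 c hbc.2.2 hbc.1
    have h4 := slit h3
    have hb : p b - x ≠ 0 := fun h => h3 (by
      have : p b = x := sub_eq_zero.1 h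
      rw [← this]; exact left_mem_segment ℝ _ _)
    have hc : p c - x ≠ 0 := fun h => h3 (by
      have : p c = x := sub_eq_zero.1 h
      rw [← this]; exact right_mem_segment ℝ _ _)
    constructor
    · refine h1.add ?_
      refine ContinuousAt.comp (f := fun x => (p c - x) / (p b - x)) (g := Complex.arg)
        (Complex.continuousAt_arg h4) ?_
      exact (continuousAt_const.sub continuousAt_id).div (continuousAt_const.sub continuousAt_id) hb
    · obtain ⟨z, hz⟩ : ∃ z, z = (p c - x) / (p b - x) := ⟨_, rfl⟩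
      have e1 := Complex.norm_mul_exp_arg_mul_I z
      have e2 : (‖p c - x‖ : ℂ) = ‖z‖ * ‖p b - x‖ := by
        rw [hz, norm_div]
        push_cast
        have : (‖p b - x‖ : ℂ) ≠ 0 := by exact_mod_cast (norm_ne_zero_iff.2 hb)
        field_simp
      have e3 : z * (p b - x) = p c - x := by rw [hz, div_mul_cancel₀ _ hb]
      beta_reduce
      rw [← hz]
      push_cast
      rw [add_mul, Complex.exp_add, e2]
      calc Complex.exp (F x * Complex.I) * Complex.exp (z.arg * Complex.I) *
            ((p a - x) * (‖z‖ * ‖p b - x‖))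
          = (Complex.exp (F x * Complex.I) * ((p a - x) * ‖p b - x‖)) *
            (‖z‖ * Complex.exp (z.arg * Complex.I)) := by ring
        _ = (p b - x) * ‖p a - x‖ * z := by rw [h2, e1]
        _ = (z * (p b - x)) * ‖p a - x‖ := by ring
        _ = (p c - x) * ‖p a - x‖ := by rw [e3]

/-- A continuous function on a segment with values in `2 π ℤ` takes the same value at both ends. -/
theorem const_of_int {W : ℂ → ℝ} {S : Set ℂ} (hS : IsPreconnected S) (hW : ContinuousOn W S)
    (hi : ∀ x ∈ S, ∃ k : ℤ, W x = k * (2 * Real.pi)) {x y : ℂ} (hx : x ∈ S) (hy : y ∈ S) :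
    W x = W y := by
  by_contra hne
  have hpi := Real.pi_pos
  wlog hlt : W x < W y generalizing x y
  · exact this hy hx (Ne.symm hne) (lt_of_le_of_ne (not_lt.1 hlt) (Ne.symm hne))
  obtain ⟨k, hk⟩ := hi x hx
  obtain ⟨l, hl⟩ := hi y hy
  have hkl : k < l := by
    rw [hk, hl] at hlt
    have := lt_of_mul_lt_mul_right hlt (by positivity)
    exact_mod_cast this
  have hkl' : (k : ℝ) + 1 ≤ l := by exact_mod_cast hkl
  have h1 : (k : ℝ) * (2 * Real.pi) + Real.pi ∈ Set.Icc (W x) (W y) := by
    rw [hk, hl]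
    constructor
    · linarith
    · nlinarith
  obtain ⟨z, hz, hz'⟩ := hS.intermediate_value hx hy hW h1
  obtain ⟨n, hn⟩ := hi z hz
  rw [hn] at hz'
  have h2 : (n : ℝ) * 2 = k * 2 + 1 := by
    have : ((n : ℝ) * 2 - (k * 2 + 1)) * Real.pi = 0 := by linear_combination hz'
    rcases mul_eq_zero.1 this with h | h
    · linarith
    · linarith
  have h3 : n * 2 = k * 2 + 1 := by exact_mod_cast h2
  omega

theorem arg_neg_div {a b : ℂ} (ha : a ≠ 0) (hb : b ≠ 0) {φ : ℝ}
    (hc : Real.cos φ = -Real.cos (a.arg - b.arg)) (hs : Real.sin φ = -Real.sin (a.arg - b.arg))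
    (h1 : -Real.pi < φ) (h2 : φ < Real.pi) :
    (-a / b).arg = φ ∧ -a / b ∈ Complex.slitPlane := by
  have na : (‖a‖ : ℂ) ≠ 0 := by exact_mod_cast (norm_ne_zero_iff.2 ha)
  have nb : (‖b‖ : ℂ) ≠ 0 := by exact_mod_cast (norm_ne_zero_iff.2 hb)
  have e1 := Complex.norm_mul_exp_arg_mul_I a
  have e2 := Complex.norm_mul_exp_arg_mul_I b
  have e3 : -a / b = ((‖a‖ / ‖b‖ : ℝ) : ℂ) * (Complex.cos φ + Complex.sin φ * Complex.I) := by
    have h3 : Complex.cos (φ : ℂ) = -Complex.cos ((a.arg : ℂ) - b.arg) := by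
      rw [← Complex.ofReal_cos, hc]; push_cast; rfl
    have h4 : Complex.sin (φ : ℂ) = -Complex.sin ((a.arg : ℂ) - b.arg) := by
      rw [← Complex.ofReal_sin, hs]; push_cast; rfl
    rw [h3, h4]
    have h5 : -Complex.cos ((a.arg : ℂ) - b.arg) + -Complex.sin ((a.arg : ℂ) - b.arg) * Complex.I =
        -Complex.exp (((a.arg : ℂ) - b.arg) * Complex.I) := by
      rw [Complex.exp_mul_I]; ring
    rw [h5, sub_mul, Complex.exp_sub]
    push_cast
    have h6 := Complex.exp_ne_zero ((b.arg : ℂ) * Complex.I)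
    rw [← e1, ← e2]
    rw [e1, e2]
    have h7 : b = ‖b‖ * Complex.exp (b.arg * Complex.I) := e2.symm
    have h8 : a = ‖a‖ * Complex.exp (a.arg * Complex.I) := e1.symm
    calc -a / b = -(‖a‖ * Complex.exp (a.arg * Complex.I)) / (‖b‖ * Complex.exp (b.arg * Complex.I)) := by
          rw [e1, e2]
      _ = _ := by field_simp
  have hr : 0 < ‖a‖ / ‖b‖ := div_pos (norm_pos_iff.2 ha) (norm_pos_iff.2 hb)
  have e4 : (-a / b).arg = φ := by
    rw [e3]
    exact Complex.arg_mul_cos_add_sin_mul_I hr ⟨h1, h2.le⟩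
  refine ⟨e4, Complex.mem_slitPlane_iff_arg.2 ⟨by rw [e4]; exact h2.ne, ?_⟩⟩
  exact div_ne_zero (neg_ne_zero.2 ha) hb

/-- Two disjoint walks that join neighbours of an outer vertex which separate each other. -/
theorem chains_cross {ι : Type} {G : SimpleGraph ι} {p : ι → ℂ} (hD : StraightDrawing G p)
    {v n1 n2 n3 n4 : ι} {A B : Set ι} (hAB : ∀ i ∈ A, i ∉ B) (hvA : v ∉ A) (hvB : v ∉ B)
    (a1 : G.Adj v n1) (a2 : G.Adj v n2) (a3 : G.Adj v n3) (a4 : G.Adj v n4)
    (m1 : n1 ∈ A) (m2 : n2 ∈ B) (m3 : n3 ∈ A) (m4 : n4 ∈ B)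
    (t1 : -(Real.pi / 2) < (p n1 - p v).arg) (t2 : (p n1 - p v).arg < (p n2 - p v).arg)
    (t3 : (p n2 - p v).arg < (p n3 - p v).arg) (t4 : (p n3 - p v).arg < (p n4 - p v).arg)
    (t5 : (p n4 - p v).arg ≤ Real.pi / 2)
    (h13 : Relation.ReflTransGen (fun i j => G.Adj i j ∧ i ∈ A ∧ j ∈ A) n1 n3)
    (h24 : Relation.ReflTransGen (fun i j => G.Adj i j ∧ i ∈ B ∧ j ∈ B) n2 n4) : False := by
  have hpi := Real.pi_pos
  obtain ⟨F, hF⟩ := angle_fun G p A h13
  -- the complement of the closed polygon
  let Ω : Set ℂ := {x | (∀ i ∈ A, ∀ j ∈ A, G.Adj i j → x ∉ segment ℝ (p i) (p j)) ∧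
    x ∉ segment ℝ (p v) (p n1) ∧ x ∉ segment ℝ (p v) (p n3)}
  let W : ℂ → ℝ := fun x => ((p n1 - x) / (p v - x)).arg + F x + ((p v - x) / (p n3 - x)).arg
  have hWc : ∀ x ∈ Ω, ContinuousAt W x := by
    intro x hx
    have h1 := slit hx.2.1
    have h2 : x ∉ segment ℝ (p n3) (p v) := by rw [segment_symm]; exact hx.2.2
    have h3 := slit h2
    have hv : p v - x ≠ 0 := fun h => hx.2.1 (by
      have : p v = x := sub_eq_zero.1 h
      rw [← this]; exact left_mem_segment ℝ _ _)
    have h4 : p n3 - x ≠ 0 := fun h => h2 (by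
      have : p n3 = x := sub_eq_zero.1 h
      rw [← this]; exact left_mem_segment ℝ _ _)
    refine (ContinuousAt.add ?_ (hF x hx.1).1).add ?_
    · refine ContinuousAt.comp (f := fun x => (p n1 - x) / (p v - x)) (g := Complex.arg)
        (Complex.continuousAt_arg h1) ?_
      exact (continuousAt_const.sub continuousAt_id).div (continuousAt_const.sub continuousAt_id) hv
    · refine ContinuousAt.comp (f := fun x => (p v - x) / (p n3 - x)) (g := Complex.arg)
        (Complex.continuousAt_arg h3) ?_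
      exact (continuousAt_const.sub continuousAt_id).div (continuousAt_const.sub continuousAt_id) h4
  have hWi : ∀ x ∈ Ω, ∃ k : ℤ, W x = k * (2 * Real.pi) := by
    intro x hx
    have hv : p v - x ≠ 0 := fun h => hx.2.1 (by
      have : p v = x := sub_eq_zero.1 h
      rw [← this]; exact left_mem_segment ℝ _ _)
    have h1 : p n1 - x ≠ 0 := fun h => hx.2.1 (by
      have : p n1 = x := sub_eq_zero.1 h
      rw [← this]; exact right_mem_segment ℝ _ _)
    have h3 : p n3 - x ≠ 0 := fun h => hx.2.2 (by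
      have : p n3 = x := sub_eq_zero.1 h
      rw [← this]; exact right_mem_segment ℝ _ _)
    have kv : (‖p v - x‖ : ℂ) ≠ 0 := by exact_mod_cast (norm_ne_zero_iff.2 hv)
    have k1 : (‖p n1 - x‖ : ℂ) ≠ 0 := by exact_mod_cast (norm_ne_zero_iff.2 h1)
    have k3 : (‖p n3 - x‖ : ℂ) ≠ 0 := by exact_mod_cast (norm_ne_zero_iff.2 h3)
    have e1 := Complex.norm_mul_exp_arg_mul_I ((p n1 - x) / (p v - x))
    have e2 := Complex.norm_mul_exp_arg_mul_I ((p v - x) / (p n3 - x))
    have e3 := (hF x hx.1).2
    rw [norm_div] at e1 e2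
    push_cast at e1 e2
    obtain ⟨X, hX⟩ : ∃ X, X = Complex.exp (((p n1 - x) / (p v - x)).arg * Complex.I) := ⟨_, rfl⟩
    obtain ⟨Y, hY⟩ : ∃ Y, Y = Complex.exp (((p v - x) / (p n3 - x)).arg * Complex.I) := ⟨_, rfl⟩
    obtain ⟨Z, hZ⟩ : ∃ Z, Z = Complex.exp (F x * Complex.I) := ⟨_, rfl⟩
    rw [← hX] at e1
    rw [← hY] at e2
    rw [← hZ] at e3
    have e4 : X = (p n1 - x) / (p v - x) * (‖p v - x‖ / ‖p n1 - x‖) := by
      rw [← e1]; field_simp
    have e5 : Y = (p v - x) / (p n3 - x) * (‖p n3 - x‖ / ‖p v - x‖) := by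
      rw [← e2]; field_simp
    have e6 : Z = (p n3 - x) * ‖p n1 - x‖ / ((p n1 - x) * ‖p n3 - x‖) := by
      rw [eq_div_iff (mul_ne_zero h1 k3)]
      exact e3
    have e7 : Complex.exp ((W x : ℂ) * Complex.I) = 1 := by
      have : ((W x : ℝ) : ℂ) * Complex.I = ((p n1 - x) / (p v - x)).arg * Complex.I +
          F x * Complex.I + ((p v - x) / (p n3 - x)).arg * Complex.I := by
        simp only [W]
        push_cast
        ring
      rw [this, Complex.exp_add, Complex.exp_add, ← hX, ← hY, ← hZ, e4, e5, e6]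
      field_simp
    obtain ⟨k, hk⟩ := Complex.exp_eq_one_iff.1 e7
    refine ⟨k, ?_⟩
    have h5 : (W x : ℂ) = k * (2 * Real.pi) := by
      have h6 : ((W x : ℂ) - k * (2 * Real.pi)) * Complex.I = 0 := by linear_combination hk
      rcases mul_eq_zero.1 h6 with h7 | h7
      · exact sub_eq_zero.1 h7
      · exact absurd h7 Complex.I_ne_zero
    exact_mod_cast h5
  -- the second walk stays in the complement
  have hB : ∀ a ∈ B, ∀ b ∈ B, G.Adj a b → segment ℝ (p a) (p b) ⊆ Ω := by
    intro a ha b hb hab x hx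
    have key : ∀ i j : ι, G.Adj i j → i ∉ B → j ∉ B → x ∉ segment ℝ (p i) (p j) := by
      intro i j hij hi hj hx'
      obtain ⟨m, h1, h2, _⟩ := hD.edge i j a b hij hab (fun h => hi (h.1 ▸ ha))
        (fun h => hi (h.1 ▸ hb)) x hx' hx
      have h3 : m ∈ B := by rcases h2 with h | h <;> rw [h] <;> assumption
      rcases h1 with h | h
      · exact hi (h ▸ h3)
      · exact hj (h ▸ h3)
    exact ⟨fun i hi j hj hij => key i j hij (hAB i hi) (hAB j hj),
      key v n1 a1 hvB (hAB n1 m1), key v n3 a3 hvB (hAB n3 m3)⟩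
  have hW24 : W (p n2) = W (p n4) := by
    clear t2 t3 t4 t5 a4 m4
    induction h24 with
    | refl => rfl
    | @tail b c _ hbc ih =>
      rw [ih]
      have hs := hB b hbc.2.1 c hbc.2.2 hbc.1
      exact const_of_int (convex_segment (p b) (p c)).isPreconnected
        (fun x hx => (hWc x (hs hx)).continuousWithinAt) (fun x hx => hWi x (hs hx))
        (left_mem_segment ℝ _ _) (right_mem_segment ℝ _ _)
  -- near the vertex `v`
  have hFv : ContinuousAt F (p v) := by
    refine (hF (p v) fun i hi j hj hij hx => ?_).1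
    rcases hD.vertex i j v hij hx with h | h
    · exact hvA (h ▸ hi)
    · exact hvA (h ▸ hj)
  have z1 : p n1 - p v ≠ 0 := fun h => G.ne_of_adj a1 (hD.inj (sub_eq_zero.1 h).symm)
  have z3 : p n3 - p v ≠ 0 := fun h => G.ne_of_adj a3 (hD.inj (sub_eq_zero.1 h).symm)
  have near : ∀ d ∈ B, G.Adj v d → ∀ φ ψ : ℝ,
      (-(p n1 - p v) / (p d - p v)).arg = φ → -(p n1 - p v) / (p d - p v) ∈ Complex.slitPlane →
      (-(p d - p v) / (p n3 - p v)).arg = ψ → -(p d - p v) / (p n3 - p v) ∈ Complex.slitPlane →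
      W (p d) = φ + F (p v) + ψ := by
    intro d hd hvd φ ψ hφ hφ' hψ hψ'
    have hdv : d ≠ v := fun h => hvB (h ▸ hd)
    have zd : p d - p v ≠ 0 := fun h => hdv (hD.inj (sub_eq_zero.1 h))
    let X : ℝ → ℂ := fun t => p v + t * (p d - p v)
    have hXc : Continuous X := by
      exact continuous_const.add (Complex.continuous_ofReal.mul continuous_const)
    have hXm : ∀ t ∈ Set.Ioc (0 : ℝ) 1, X t ∈ Ω := by
      intro t ht
      have hx : X t ∈ segment ℝ (p v) (p d) := by
        refine ⟨1 - t, t, by linarith [ht.2], ht.1.le, by ring, ?_⟩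
        simp only [X, Complex.real_smul]
        push_cast
        ring
      have hxv : X t ≠ p v := by
        intro h
        have h1 : (t : ℂ) * (p d - p v) = 0 := by
          have : X t = p v + t * (p d - p v) := rfl
          rw [this] at h
          linear_combination h
        rcases mul_eq_zero.1 h1 with h2 | h2
        · exact ht.1.ne' (by exact_mod_cast h2)
        · exact zd h2
      have key : ∀ n : ι, G.Adj v n → n ∈ A → X t ∉ segment ℝ (p v) (p n) := by
        intro n hn hnA hx'
        have hnd : n ≠ d := fun h => hAB n hnA (h ▸ hd)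
        obtain ⟨m, h1, h2, h3⟩ := hD.edge v d v n hvd hn (fun h => hnd h.2.symm)
          (fun h => G.ne_of_adj hn h.1) (X t) hx hx'
        rcases h1 with h1 | h1
        · exact hxv (by rw [h3, h1])
        · rcases h2 with h2 | h2
          · exact hdv (h1.symm.trans h2)
          · exact hnd (h2.symm.trans h1)
      refine ⟨fun i hi j hj hij hx' => ?_, key n1 a1 m1, key n3 a3 m3⟩
      obtain ⟨m, h1, h2, _⟩ := hD.edge v d i j hvd hij (fun h => hvA (h.1 ▸ hi))
        (fun h => hvA (h.1 ▸ hj)) (X t) hx hx'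
      have h3 : m ∈ A := by rcases h2 with h | h <;> rw [h] <;> assumption
      rcases h1 with h | h
      · exact hvA (h ▸ h3)
      · exact hAB m h3 (h ▸ hd)
    have hX1 : X 1 = p d := by simp [X]
    have hconst : ∀ t ∈ Set.Ioc (0 : ℝ) 1, W (X t) = W (p d) := by
      intro t ht
      have hS : IsPreconnected (X '' Set.Ioc (0 : ℝ) 1) :=
        isPreconnected_Ioc.image X hXc.continuousOn
      rw [← hX1]
      refine const_of_int hS (fun x hx => ?_) (fun x hx => ?_) ⟨t, ht, rfl⟩
        ⟨1, ⟨one_pos, le_rfl⟩, rfl⟩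
      · obtain ⟨u, hu, rfl⟩ := hx
        exact (hWc _ (hXm u hu)).continuousWithinAt
      · obtain ⟨u, hu, rfl⟩ := hx
        exact hWi _ (hXm u hu)
    have hlim : Filter.Tendsto (fun t : ℝ => W (X t)) (nhdsWithin 0 (Set.Ioi 0))
        (nhds (φ + F (p v) + ψ)) := by
      have hX0 : X 0 = p v := by simp [X]
      have l1 : Filter.Tendsto (fun t : ℝ => F (X t)) (nhdsWithin 0 (Set.Ioi 0)) (nhds (F (p v))) := by
        have : ContinuousAt (fun t : ℝ => F (X t)) 0 := by
          refine ContinuousAt.comp (f := X) (g := F) ?_ hXc.continuousAt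
          rw [hX0]; exact hFv
        have h2 := this.tendsto
        rw [hX0] at h2
        exact h2.mono_left nhdsWithin_le_nhds
      have l2 : Filter.Tendsto (fun t : ℝ => ((p n1 - X t) / (p v - X t)).arg)
          (nhdsWithin 0 (Set.Ioi 0)) (nhds φ) := by
        have h1 : ContinuousAt (fun t : ℝ => ((t : ℂ) + -(p n1 - p v) / (p d - p v)).arg) 0 := by
          refine ContinuousAt.comp (f := fun t : ℝ => (t : ℂ) + -(p n1 - p v) / (p d - p v))
            (g := Complex.arg) (Complex.continuousAt_arg ?_) ?_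
          · simpa using hφ'
          · exact (Complex.continuous_ofReal.add continuous_const).continuousAt
        have h2 := h1.tendsto
        simp only [Complex.ofReal_zero, zero_add] at h2
        rw [hφ] at h2
        refine (h2.mono_left nhdsWithin_le_nhds).congr' ?_
        filter_upwards [self_mem_nhdsWithin] with t ht
        have ht' : (0 : ℝ) < t := ht
        have htc : (t : ℂ) ≠ 0 := by exact_mod_cast ht'.ne'
        have e1 : (p n1 - X t) / (p v - X t) =
            ((t⁻¹ : ℝ) : ℂ) * ((t : ℂ) + -(p n1 - p v) / (p d - p v)) := by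
          have e2 : p v - X t = -(t * (p d - p v)) := by simp only [X]; ring
          have e3 : p n1 - X t = (p n1 - p v) - t * (p d - p v) := by simp only [X]; ring
          rw [e2, e3]
          push_cast
          field_simp
          ring
        rw [e1, Complex.arg_real_mul _ (inv_pos.2 ht')]
      have l3 : Filter.Tendsto (fun t : ℝ => ((p v - X t) / (p n3 - X t)).arg)
          (nhdsWithin 0 (Set.Ioi 0)) (nhds ψ) := by
        have h1 : ContinuousAt
            (fun t : ℝ => (-(p d - p v) / ((p n3 - p v) - t * (p d - p v))).arg) 0 := by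
          refine ContinuousAt.comp
            (f := fun t : ℝ => -(p d - p v) / ((p n3 - p v) - t * (p d - p v)))
            (g := Complex.arg) (Complex.continuousAt_arg ?_) ?_
          · simpa using hψ'
          · refine ContinuousAt.div continuousAt_const ?_ (by simpa using z3)
            exact (continuous_const.sub (Complex.continuous_ofReal.mul continuous_const)).continuousAt
        have h2 := h1.tendsto
        simp only [Complex.ofReal_zero, zero_mul, sub_zero] at h2
        rw [hψ] at h2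
        refine (h2.mono_left nhdsWithin_le_nhds).congr' ?_
        filter_upwards [self_mem_nhdsWithin] with t ht
        have ht' : (0 : ℝ) < t := ht
        have e1 : (p v - X t) / (p n3 - X t) =
            ((t : ℝ) : ℂ) * (-(p d - p v) / ((p n3 - p v) - t * (p d - p v))) := by
          have e2 : p v - X t = -(t * (p d - p v)) := by simp only [X]; ring
          have e3 : p n3 - X t = (p n3 - p v) - t * (p d - p v) := by simp only [X]; ring
          rw [e2, e3]
          ring
        rw [e1, Complex.arg_real_mul _ ht']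
      exact (l2.add l1).add l3
    have hlim2 : Filter.Tendsto (fun t : ℝ => W (X t)) (nhdsWithin 0 (Set.Ioi 0))
        (nhds (W (p d))) := by
      refine tendsto_const_nhds.congr' ?_
      filter_upwards [Ioc_mem_nhdsGT (zero_lt_one' ℝ)] with t ht
      exact (hconst t ht).symm
    exact tendsto_nhds_unique hlim2 hlim
  have z2 : p n2 - p v ≠ 0 := fun h => G.ne_of_adj a2 (hD.inj (sub_eq_zero.1 h).symm)
  have z4 : p n4 - p v ≠ 0 := fun h => G.ne_of_adj a4 (hD.inj (sub_eq_zero.1 h).symm)
  have trig : ∀ x : ℝ, Real.cos (x + Real.pi) = -Real.cos x ∧ Real.sin (x + Real.pi) = -Real.sin x ∧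
      Real.cos (x - Real.pi) = -Real.cos x ∧ Real.sin (x - Real.pi) = -Real.sin x :=
    fun x => ⟨Real.cos_add_pi x, Real.sin_add_pi x, Real.cos_sub_pi x, Real.sin_sub_pi x⟩
  have b12 := arg_neg_div z1 z2 (φ := (p n1 - p v).arg - (p n2 - p v).arg + Real.pi)
    (trig _).1 (trig _).2.1 (by linarith) (by linarith)
  have b23 := arg_neg_div z2 z3 (φ := (p n2 - p v).arg - (p n3 - p v).arg + Real.pi)
    (trig _).1 (trig _).2.1 (by linarith) (by linarith)
  have b14 := arg_neg_div z1 z4 (φ := (p n1 - p v).arg - (p n4 - p v).arg + Real.pi)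
    (trig _).1 (trig _).2.1 (by linarith) (by linarith)
  have b43 := arg_neg_div z4 z3 (φ := (p n4 - p v).arg - (p n3 - p v).arg - Real.pi)
    (trig _).2.2.1 (trig _).2.2.2 (by linarith) (by linarith)
  have c2 := near n2 m2 a2 _ _ b12.1 b12.2 b23.1 b23.2
  have c4 := near n4 m4 a4 _ _ b14.1 b14.2 b43.1 b43.2
  linarith

/-! ### Kempe chains -/

/-- The vertices of `s` other than `v` with the colours `x` or `y`. -/
def Chain {ι : Type} (s : Finset ι) (v : ι) (f : ι → Fin 4) (x y : Fin 4) : Set ι :=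
  {w | w ∈ s ∧ w ≠ v ∧ (f w = x ∨ f w = y)}

theorem recolour {ι : Type} (G : SimpleGraph ι) (s : Finset ι) (v : ι) (f : ι → Fin 4)
    (hf : ∀ i ∈ s, ∀ j ∈ s, i ≠ v → j ≠ v → G.Adj i j → f i ≠ f j)
    (hi : ∀ i ∈ s, ∀ j ∈ s, G.Adj v i → G.Adj v j → f i = f j → i = j)
    {a b : ι} (ha : a ∈ s) (hb : b ∈ s) (hva : G.Adj v a) (hvb : G.Adj v b) (hab : a ≠ b)
    (h : ¬ Relation.ReflTransGen (fun i j => G.Adj i j ∧ i ∈ Chain s v f (f a) (f b) ∧
      j ∈ Chain s v f (f a) (f b)) a b) :
    ∃ g : ι → Fin 4, ∀ i ∈ s, ∀ j ∈ s, G.Adj i j → g i ≠ g j := by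
  classical
  have hav : a ≠ v := fun h => G.ne_of_adj hva h.symm
  have hfab : f a ≠ f b := fun h => hab (hi a ha b hb hva hvb h)
  let R : ι → ι → Prop := fun i j => G.Adj i j ∧ i ∈ Chain s v f (f a) (f b) ∧
      j ∈ Chain s v f (f a) (f b)
  let C : ι → Prop := fun w => Relation.ReflTransGen R a w
  have hCA : ∀ w, C w → w ∈ Chain s v f (f a) (f b) := by
    intro w hw
    rcases Relation.ReflTransGen.cases_tail hw with h | ⟨c, _, h⟩
    · rw [h]
      exact ⟨ha, hav, Or.inl rfl⟩
    · exact h.2.2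
  have hCb : ¬ C b := h
  have hCa : C a := Relation.ReflTransGen.refl
  let g : ι → Fin 4 := fun w => if w = v then f a else
    if C w then Equiv.swap (f a) (f b) (f w) else f w
  have gv : g v = f a := by simp [g]
  have g1 : ∀ w, w ≠ v → C w → g w = Equiv.swap (f a) (f b) (f w) := by
    intro w hw hc; simp [g, hw, hc]
  have g2 : ∀ w, w ≠ v → ¬ C w → g w = f w := by
    intro w hw hc; simp [g, hw, hc]
  -- neighbours of `v`
  have hN : ∀ w ∈ s, G.Adj v w → g w ≠ f a := by
    intro w hw hvw
    have hwv : w ≠ v := fun h => G.ne_of_adj hvw h.symm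
    by_cases hc : C w
    · rw [g1 w hwv hc]
      intro he
      have h1 : f w = f b := by
        have := congrArg (Equiv.swap (f a) (f b)) he
        rwa [Equiv.swap_apply_self, Equiv.swap_apply_left] at this
      have h2 := hi w hw b hb hvw hvb h1
      exact hCb (h2 ▸ hc)
    · rw [g2 w hwv hc]
      intro he
      have h2 := hi w hw a ha hvw hva he
      exact hc (h2 ▸ hCa)
  -- one end in the component, one outside
  have hM : ∀ i ∈ s, ∀ j ∈ s, i ≠ v → j ≠ v → G.Adj i j → C i → ¬ C j → g i ≠ g j := by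
    intro i _ j hj hiv hjv hij hci hcj
    rw [g1 i hiv hci, g2 j hjv hcj]
    intro he
    have h1 := hCA i hci
    have h2 : f j = f a ∨ f j = f b := by
      rcases h1.2.2 with h | h
      · right; rw [← he, h, Equiv.swap_apply_left]
      · left; rw [← he, h, Equiv.swap_apply_right]
    exact hcj (Relation.ReflTransGen.tail hci ⟨hij, h1, hj, hjv, h2⟩)
  refine ⟨g, fun i his j hjs hij => ?_⟩
  by_cases h1 : i = v
  · rw [h1, gv]
    rw [h1] at hij
    exact (hN j hjs hij).symm
  · by_cases h2 : j = v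
    · rw [h2, gv]
      rw [h2] at hij
      exact hN i his hij.symm
    · by_cases hc : C i
      · by_cases hc' : C j
        · rw [g1 i h1 hc, g1 j h2 hc']
          exact fun he => hf i his j hjs h1 h2 hij ((Equiv.swap (f a) (f b)).injective he)
        · exact hM i his j hjs h1 h2 hij hc hc'
      · by_cases hc' : C j
        · exact (hM j hjs i his h2 h1 hij.symm hc' hc).symm
        · rw [g2 i h1 hc, g2 j h2 hc']
          exact hf i his j hjs h1 h2 hij

theorem four_of_drawing {ι : Type} [Finite ι] (G : SimpleGraph ι) (p : ι → ℂ)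
    (hD : StraightDrawing G p)
    (H : ∀ s : Finset ι, s.Nonempty → ∃ v ∈ s,
      (∀ w ∈ s, G.Adj v w → -(Real.pi / 2) < (p w - p v).arg ∧ (p w - p v).arg ≤ Real.pi / 2) ∧
      (∀ w ∈ s, ∀ w' ∈ s, G.Adj v w → G.Adj v w' → w ≠ w' → (p w - p v).arg ≠ (p w' - p v).arg) ∧
      ∀ t : Finset ι, (∀ w ∈ t, w ∈ s ∧ G.Adj v w) → t.card ≤ 4) : G.Colorable 4 := by
  classical
  have : Fintype ι := Fintype.ofFinite ι
  have key : ∀ n : ℕ, ∀ s : Finset ι, s.card = n →
      ∃ f : ι → Fin 4, ∀ i ∈ s, ∀ j ∈ s, G.Adj i j → f i ≠ f j := by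
    intro n
    induction n with
    | zero =>
      intro s hs
      rw [Finset.card_eq_zero] at hs
      subst hs
      exact ⟨fun _ => 0, fun i hi => absurd hi (Finset.notMem_empty i)⟩
    | succ n ih =>
      intro s hs
      obtain ⟨v, hv, hang, hne, hcard⟩ := H s (Finset.card_pos.1 (by omega))
      obtain ⟨f, hf⟩ := ih (s.erase v) (by rw [Finset.card_erase_of_mem hv]; omega)
      have hf' : ∀ i ∈ s, ∀ j ∈ s, i ≠ v → j ≠ v → G.Adj i j → f i ≠ f j :=
        fun i hi j hj h1 h2 hij => hf i (Finset.mem_erase.2 ⟨h1, hi⟩) j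
          (Finset.mem_erase.2 ⟨h2, hj⟩) hij
      obtain ⟨t, ht⟩ : ∃ t : Finset ι, t = s.filter fun w => G.Adj v w := ⟨_, rfl⟩
      have htm : ∀ w, w ∈ t ↔ w ∈ s ∧ G.Adj v w := fun w => by rw [ht, Finset.mem_filter]
      have hcard' := hcard t (fun w hw => (htm w).1 hw)
      by_cases hfree : ∃ a : Fin 4, a ∉ t.image f
      · obtain ⟨a, ha⟩ := hfree
        refine ⟨fun i => if i = v then a else f i, fun i hi j hj hij => ?_⟩
        have ha' : ∀ w ∈ s, G.Adj v w → f w ≠ a := by
          intro w hw hvw he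
          exact ha (Finset.mem_image.2 ⟨w, (htm w).2 ⟨hw, hvw⟩, he⟩)
        by_cases h3 : i = v
        · subst h3
          have h4 : j ≠ i := fun h => G.ne_of_adj hij h.symm
          simp only [if_true, if_neg h4]
          exact (ha' j hj hij).symm
        · by_cases h4 : j = v
          · subst h4
            simp only [if_true, if_neg h3]
            exact ha' i hi hij.symm
          · simp only [if_neg h3, if_neg h4]
            exact hf' i hi j hj h3 h4 hij
      · push Not at hfree
        have himg : (t.image f).card = 4 := by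
          rw [Finset.eq_univ_iff_forall.2 hfree, Finset.card_univ, Fintype.card_fin]
        have htc : t.card = 4 := le_antisymm hcard' (himg ▸ Finset.card_image_le)
        have hinj : Set.InjOn f t := Finset.card_image_iff.1 (by rw [himg, htc])
        have hi : ∀ i ∈ s, ∀ j ∈ s, G.Adj v i → G.Adj v j → f i = f j → i = j :=
          fun i his j hjs h1 h2 h => hinj ((htm i).2 ⟨his, h1⟩) ((htm j).2 ⟨hjs, h2⟩) h
        -- the neighbours in the order of their arguments
        let θ : ι → ℝ := fun w => (p w - p v).arg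
        have hθ : Set.InjOn θ t := by
          intro w hw w' hw' h
          by_contra hww
          exact hne w ((htm w).1 hw).1 w' ((htm w').1 hw').1 ((htm w).1 hw).2 ((htm w').1 hw').2
            hww h
        have hT : (t.image θ).card = 4 := by rw [Finset.card_image_of_injOn hθ, htc]
        let o := (t.image θ).orderEmbOfFin hT
        have ho : ∀ k : Fin 4, ∃ w ∈ t, θ w = o k := fun k =>
          Finset.mem_image.1 (Finset.orderEmbOfFin_mem _ hT k)
        choose n hnt hno using ho
        have hlt : ∀ k l : Fin 4, k < l → θ (n k) < θ (n l) := by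
          intro k l hkl
          rw [hno, hno]
          exact o.strictMono hkl
        have hn : ∀ k : Fin 4, n k ∈ s ∧ G.Adj v (n k) := fun k => (htm _).1 (hnt k)
        have hnn : ∀ k l : Fin 4, k < l → n k ≠ n l := fun k l hkl h => by
          have := hlt k l hkl
          rw [h] at this
          exact lt_irrefl _ this
        by_cases c1 : Relation.ReflTransGen (fun i j => G.Adj i j ∧
            i ∈ Chain s v f (f (n 0)) (f (n 2)) ∧ j ∈ Chain s v f (f (n 0)) (f (n 2))) (n 0) (n 2)
        · by_cases c2 : Relation.ReflTransGen (fun i j => G.Adj i j ∧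
              i ∈ Chain s v f (f (n 1)) (f (n 3)) ∧ j ∈ Chain s v f (f (n 1)) (f (n 3))) (n 1) (n 3)
          · exfalso
            have hnv : ∀ k, n k ≠ v := fun k h => G.ne_of_adj (hn k).2 h.symm
            have hcol : ∀ k l : Fin 4, k < l → f (n k) ≠ f (n l) := fun k l hkl h =>
              hnn k l hkl (hi _ (hn k).1 _ (hn l).1 (hn k).2 (hn l).2 h)
            refine chains_cross hD (A := Chain s v f (f (n 0)) (f (n 2)))
              (B := Chain s v f (f (n 1)) (f (n 3))) ?_ (fun h => h.2.1 rfl) (fun h => h.2.1 rfl)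
              (hn 0).2 (hn 1).2 (hn 2).2 (hn 3).2
              ⟨(hn 0).1, hnv 0, Or.inl rfl⟩ ⟨(hn 1).1, hnv 1, Or.inl rfl⟩
              ⟨(hn 2).1, hnv 2, Or.inr rfl⟩ ⟨(hn 3).1, hnv 3, Or.inr rfl⟩
              (hang _ (hn 0).1 (hn 0).2).1 (hlt 0 1 (by decide)) (hlt 1 2 (by decide))
              (hlt 2 3 (by decide)) (hang _ (hn 3).1 (hn 3).2).2 c1 c2
            rintro i ⟨_, _, h1⟩ ⟨_, _, h2⟩
            have k01 := hcol 0 1 (by decide)
            have k03 := hcol 0 3 (by decide)
            have k12 := hcol 1 2 (by decide)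
            have k23 := hcol 2 3 (by decide)
            rcases h1 with h1 | h1 <;> rcases h2 with h2 | h2 <;> rw [h1] at h2
            · exact k01 h2
            · exact k03 h2
            · exact k12 h2.symm
            · exact k23 h2
          · exact recolour G s v f hf' hi (hn 1).1 (hn 3).1 (hn 1).2 (hn 3).2
              (hnn 1 3 (by decide)) c2
        · exact recolour G s v f hf' hi (hn 0).1 (hn 2).1 (hn 0).2 (hn 2).2
            (hnn 0 2 (by decide)) c1
  obtain ⟨f, hf⟩ := key _ Finset.univ rfl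
  exact ⟨SimpleGraph.Coloring.mk f fun {i j} h => hf i (Finset.mem_univ i) j (Finset.mem_univ j) h⟩

end Pool.Agent.Results.MP_fada92_co.ThinSlabs
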