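import Pool.Agent.Lib_helper34.TSS.A

/-!
MP_fada92_co.ThinSlabs: packings in a slab, upper bounds (text of helper73, unchanged)
-/

set_option autoImplicit false

namespace Pool.Agent.Results.MP_fada92_co.ThinSlabs

open Metric

/-! ### The packing -/

theorem dist_ge {ι : Type} {c : ι → E3} {r : ℝ} (hc : IsPacking c r) {i j : ι} (hij : i ≠ j) :
    (2 * r) ^ 2 ≤ ‖c j - c i‖ ^ 2 := by
  have h1 := (disjoint_ball_ball_iff hc.1 hc.1).1 (hc.2 j i hij.symm)
  rw [dist_eq_norm] at h1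
  have := hc.1
  exact pow_le_pow_left₀ (by linarith) (by linarith) 2

theorem dist_adj {ι : Type} {c : ι → E3} {r : ℝ} (hc : IsPacking c r) {i j : ι}
    (hij : (contactGraph c r).Adj i j) : ‖c j - c i‖ ^ 2 = (2 * r) ^ 2 := by
  have hr := hc.1
  have h1 := dist_ge hc hij.1
  have h2 : ¬ (r + r < dist (c i) (c j)) := by
    rw [← disjoint_closedBall_closedBall_iff hr.le hr.le, Set.not_disjoint_iff_nonempty_inter]
    exact hij.2
  rw [dist_comm, dist_eq_norm] at h2
  push Not at h2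
  have h3 : ‖c j - c i‖ ^ 2 ≤ (2 * r) ^ 2 := pow_le_pow_left₀ (norm_nonneg _) (by linarith) 2
  linarith

theorem exists_basis (e : E3) (he : ‖e‖ = 1) :
    ∃ a b : E3, ∀ x : E3, ‖x‖ ^ 2 =
      (inner ℝ a x) ^ 2 + (inner ℝ b x) ^ 2 + (inner ℝ e x) ^ 2 := by
  have h1 : Orthonormal ℝ (({2} : Set (Fin 3)).domRestrict fun _ => e) := by
    rw [orthonormal_iff_ite]
    rintro ⟨i, hi⟩ ⟨j, hj⟩
    rw [Set.mem_singleton_iff] at hi hj
    subst hi hj
    rw [if_pos rfl]
    change inner ℝ e e = (1 : ℝ)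
    rw [real_inner_self_eq_norm_sq, he, one_pow]
  obtain ⟨B, hB⟩ := h1.exists_orthonormalBasis_extension_of_card_eq (by simp)
  refine ⟨B 0, B 1, fun x => ?_⟩
  have h2 := B.sum_sq_norm_inner_right x
  rw [Fin.sum_univ_three, hB 2 rfl] at h2
  simp only [Real.norm_eq_abs, sq_abs] at h2
  linarith

/-- The position of the centre `x` in the plane orthogonal to `e`. -/
noncomputable def pos (a b x : E3) : ℂ := ⟨inner ℝ a x, inner ℝ b x⟩

/-- Seen from the lexicographically first projected centre. -/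
theorem local_data {ι : Type} {c : ι → E3} {r h : ℝ} {e a b : E3} (hc : IsPacking c r)
    (hab : ∀ x : E3, ‖x‖ ^ 2 = (inner ℝ a x) ^ 2 + (inner ℝ b x) ^ 2 + (inner ℝ e x) ^ 2)
    (hs : InSlab c e h) (hh : h ^ 2 < 4 * r ^ 2) (m : ℕ)
    (h0 : 0 ≤ Real.cos (Real.pi / m))
    (hp : ∀ u v : ℝ, |u| ≤ h → |v| ≤ h → |u - v| ≤ h → (2 * r ^ 2 - u * v) ^ 2 ≤
      Real.cos (Real.pi / m) ^ 2 * ((4 * r ^ 2 - u ^ 2) * (4 * r ^ 2 - v ^ 2)))
    (s : Finset ι) (hne : s.Nonempty) :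
    ∃ v ∈ s, (∀ w ∈ s, (contactGraph c r).Adj v w → 0 < (pos a b (c w) - pos a b (c v)).re ∨
        ((pos a b (c w) - pos a b (c v)).re = 0 ∧ 0 < (pos a b (c w) - pos a b (c v)).im)) ∧
      ∀ w ∈ s, ∀ w' ∈ s, (contactGraph c r).Adj v w → (contactGraph c r).Adj v w' → w ≠ w' →
        (pos a b (c w) - pos a b (c v)).re * (pos a b (c w') - pos a b (c v)).re +
          (pos a b (c w) - pos a b (c v)).im * (pos a b (c w') - pos a b (c v)).im ≤
        Real.cos (Real.pi / m) *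
          (‖pos a b (c w) - pos a b (c v)‖ * ‖pos a b (c w') - pos a b (c v)‖) := by
  obtain ⟨v, hv, hmin⟩ := Finset.exists_min_image s
    (fun i => toLex (inner ℝ a (c i), inner ℝ b (c i))) hne
  have hre : ∀ w, (pos a b (c w) - pos a b (c v)).re = inner ℝ a (c w - c v) := fun w => by
    rw [inner_sub_right]; rfl
  have him : ∀ w, (pos a b (c w) - pos a b (c v)).im = inner ℝ b (c w - c v) := fun w => by
    rw [inner_sub_right]; rfl
  have hn : ∀ w, (contactGraph c r).Adj v w →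
      ‖pos a b (c w) - pos a b (c v)‖ ^ 2 = 4 * r ^ 2 - (inner ℝ e (c w - c v)) ^ 2 := by
    intro w hw
    have h1 := dist_adj hc hw
    rw [hab (c w - c v)] at h1
    rw [← Complex.normSq_eq_norm_sq, Complex.normSq_apply, hre, him]
    linarith
  have hu : ∀ w : ι, (inner ℝ e (c w - c v)) ^ 2 ≤ h ^ 2 := fun w => sq_le_sq' (by
    linarith [(abs_le.1 (hs v w)).1]) (abs_le.1 (hs v w)).2
  refine ⟨v, hv, fun w hw hvw => ?_, fun w hw w' hw' hvw hvw' hww => ?_⟩
  · have h1 := hmin w hw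
    rw [Prod.Lex.toLex_le_toLex] at h1
    have h2 := hn w hvw
    have h3 := hu w
    rw [← Complex.normSq_eq_norm_sq, Complex.normSq_apply] at h2
    rw [hre, him] at h2 ⊢
    rw [inner_sub_right, inner_sub_right] at h2 ⊢
    rcases h1 with h1 | ⟨h1, h1'⟩
    · left
      linarith
    · right
      refine ⟨by linarith, ?_⟩
      have h1'' : inner ℝ b (c v) ≤ inner ℝ b (c w) := h1'
      rcases h1''.lt_or_eq with h4 | h4
      · linarith
      · exfalso
        have h5 : inner ℝ a (c v) = inner ℝ a (c w) := h1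
        rw [h5, h4] at h2
        nlinarith
  · have h1 := hn w hvw
    have h2 := hn w' hvw'
    have h3 := dist_ge hc hww
    have h4 : c w' - c w = (c w' - c v) - (c w - c v) := by abel
    rw [h4, hab, inner_sub_right a (c w' - c v), inner_sub_right b (c w' - c v),
      inner_sub_right e (c w' - c v)] at h3
    have r1 := hre w
    have r2 := him w
    have r3 := hre w'
    have r4 := him w'
    obtain ⟨z, hz⟩ : ∃ z, z = pos a b (c w) - pos a b (c v) := ⟨_, rfl⟩
    obtain ⟨z', hz'⟩ : ∃ z, z = pos a b (c w') - pos a b (c v) := ⟨_, rfl⟩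
    rw [← hz] at h1 r1 r2 ⊢
    rw [← hz'] at h2 r3 r4 ⊢
    rw [← r1, ← r2, ← r3, ← r4] at h3
    obtain ⟨u, hu'⟩ : ∃ u : ℝ, u = inner ℝ e (c w - c v) := ⟨_, rfl⟩
    obtain ⟨u', hu''⟩ : ∃ u : ℝ, u = inner ℝ e (c w' - c v) := ⟨_, rfl⟩
    rw [← hu'] at h1
    rw [← hu''] at h2
    rw [← hu', ← hu''] at h3
    have k1 := h1
    have k2 := h2
    rw [← Complex.normSq_eq_norm_sq, Complex.normSq_apply] at k1 k2
    have h5 : z.re * z'.re + z.im * z'.im ≤ 2 * r ^ 2 - u * u' := by nlinarith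
    have b1 : |u| ≤ h := by rw [hu']; exact hs v w
    have b2 : |u'| ≤ h := by rw [hu'']; exact hs v w'
    have b3 : |u - u'| ≤ h := by
      rw [hu', hu'', ← inner_sub_right, show c w - c v - (c w' - c v) = c w - c w' by abel]
      exact hs w' w
    have h6 := hp u u' b1 b2 b3
    have h7 : (2 * r ^ 2 - u * u') ^ 2 ≤ (Real.cos (Real.pi / m) * (‖z‖ * ‖z'‖)) ^ 2 := by
      rw [mul_pow, mul_pow, h1, h2]
      exact h6
    have h8 := abs_le_of_sq_le_sq h7 (mul_nonneg h0 (mul_nonneg (norm_nonneg _) (norm_nonneg _)))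
    have h9 := le_abs_self (2 * r ^ 2 - u * u')
    linarith

theorem colour {ι : Type} [Finite ι] {c : ι → E3} {r h : ℝ} {e : E3} (hc : IsPacking c r)
    (he : ‖e‖ = 1) (hs : InSlab c e h) (hh : h ^ 2 < 4 * r ^ 2) (m : ℕ) (hm : 1 ≤ m)
    (h0 : 0 ≤ Real.cos (Real.pi / m))
    (hp : ∀ u v : ℝ, |u| ≤ h → |v| ≤ h → |u - v| ≤ h → (2 * r ^ 2 - u * v) ^ 2 ≤
      Real.cos (Real.pi / m) ^ 2 * ((4 * r ^ 2 - u ^ 2) * (4 * r ^ 2 - v ^ 2))) :
    (contactGraph c r).Colorable (m + 1) := by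
  obtain ⟨a, b, hab⟩ := exists_basis e he
  refine colorable_of_small _ m fun s hne => ?_
  obtain ⟨v, hv, h1, h2⟩ := local_data hc hab hs hh m h0 hp s hne
  refine ⟨v, hv, fun t ht => ?_⟩
  exact card_le t (fun w => pos a b (c w) - pos a b (c v)) m hm
    (fun w hw => h1 w (ht w hw).1 (ht w hw).2)
    (fun w hw w' hw' hww => h2 w (ht w hw).1 w' (ht w' hw').1 (ht w hw).2 (ht w' hw').2 hww)

/-! ### The three thresholds -/

/-- `(2 R - s)² ≤ (4 R - u²) (4 R - v²) / 2`, `s = u v`. -/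
theorem poly4 {R H u v : ℝ} (hR : 0 < R) (hH : H ≤ (24 * √2 - 32) * R) (hu : u ^ 2 ≤ H)
    (hv : v ^ 2 ≤ H) (huv : (u - v) ^ 2 ≤ H) :
    (2 * R - u * v) ^ 2 ≤ 1 / 2 * ((4 * R - u ^ 2) * (4 * R - v ^ 2)) := by
  have s2 : √2 ^ 2 = 2 := Real.sq_sqrt (by norm_num)
  have s0 : 0 ≤ √2 := Real.sqrt_nonneg 2
  have s1 : √2 ≤ 1.4143 := by
    by_contra hcon
    push Not at hcon
    nlinarith
  have s3 : 1.4142 ≤ √2 := by
    by_contra hcon
    push Not at hcon
    nlinarith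
  have hH2 : H ≤ 2 * R := by nlinarith
  suffices h : (u * v) ^ 2 + 4 * R * (u - v) ^ 2 ≤ 8 * R ^ 2 by nlinarith
  rcases le_or_gt (u * v) 0 with hs | hs
  · obtain ⟨D, hD⟩ : ∃ D, D = (u - v) ^ 2 := ⟨_, rfl⟩
    obtain ⟨τ, hτ⟩ : ∃ τ, τ = 24 * √2 - 32 := ⟨_, rfl⟩
    have hτ2 : τ ^ 2 + 64 * τ = 128 := by rw [hτ]; nlinarith
    have hτ0 : 0 < τ := by rw [hτ]; linarith
    have h1 : -(4 * (u * v)) ≤ D := by rw [hD]; nlinarith [sq_nonneg (u + v)]
    have h2 : 16 * (u * v) ^ 2 ≤ D ^ 2 := by nlinarith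
    have hD0 : 0 ≤ D := by rw [hD]; positivity
    have h3 : D ≤ τ * R := by rw [hD, hτ]; linarith
    have h4 : D ^ 2 ≤ (τ * R) ^ 2 := pow_le_pow_left₀ hD0 h3 2
    have h5 : R * D ≤ R * (τ * R) := mul_le_mul_of_nonneg_left h3 hR.le
    rw [← hD]
    have h6 : (τ * R) ^ 2 + 64 * (R * (τ * R)) = 128 * R ^ 2 := by
      have : (τ * R) ^ 2 + 64 * (R * (τ * R)) = (τ ^ 2 + 64 * τ) * R ^ 2 := by ring
      rw [this, hτ2]
    nlinarith
  · have key : ∀ x y : ℝ, x ^ 2 ≤ H → 0 < x * y → y ^ 2 ≤ x ^ 2 →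
        (x * y) ^ 2 + 4 * R * (x - y) ^ 2 ≤ 8 * R ^ 2 := by
      intro x y hx hxy hyx
      have h1 : y ^ 2 ≤ x * y := by
        have : (y ^ 2) ^ 2 ≤ (x * y) ^ 2 := by
          rw [mul_pow]
          nlinarith [sq_nonneg y]
        exact (abs_le_of_sq_le_sq this hxy.le |> le_trans (le_abs_self _))
      have h2 : (x * y) ^ 2 ≤ 4 * R * y ^ 2 := by
        rw [mul_pow]
        exact mul_le_mul_of_nonneg_right (by linarith) (sq_nonneg y)
      have h3 : R * y ^ 2 ≤ R * (x * y) := mul_le_mul_of_nonneg_left h1 hR.le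
      have h4 : R * x ^ 2 ≤ R * (2 * R) := mul_le_mul_of_nonneg_left (by linarith) hR.le
      nlinarith
    rcases le_total (v ^ 2) (u ^ 2) with h | h
    · exact key u v hu hs h
    · have := key v u hv (by linarith [mul_comm u v]) h
      nlinarith

/-- `(2 R - s)² ≤ κ (4 R - u²) (4 R - v²)`, `s = u v`. -/
theorem polyk {κ R H u v : ℝ} (hκ : 5 / 9 ≤ κ) (hκ1 : κ ≤ 1) (hR : 0 < R)
    (hH : κ * H ≤ (4 * κ - 1) * R) (hu : u ^ 2 ≤ H) (hv : v ^ 2 ≤ H) (huv : (u - v) ^ 2 ≤ H) :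
    (2 * R - u * v) ^ 2 ≤ κ * ((4 * R - u ^ 2) * (4 * R - v ^ 2)) := by
  have hH0 : 0 ≤ H := (sq_nonneg u).trans hu
  have hH4 : H ≤ 4 * R := by
    by_contra hcon
    push Not at hcon
    nlinarith
  suffices h : 0 ≤ κ * (4 * R - u * v) ^ 2 - (2 * R - u * v) ^ 2 - 4 * κ * R * (u - v) ^ 2 by
    nlinarith
  rcases le_or_gt (u * v) 0 with hs | hs
  · have h1 : -(4 * (u * v)) ≤ (u - v) ^ 2 := by nlinarith [sq_nonneg (u + v)]
    have h2 : 4 * R * (κ * (u - v) ^ 2) ≤ 4 * R * ((4 * κ - 1) * R) := by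
      refine mul_le_mul_of_nonneg_left ?_ (by positivity)
      exact (mul_le_mul_of_nonneg_left huv (by linarith)).trans hH
    have h3 : (4 - 8 * κ) * R - (1 - κ) * (u * v) ≤ 0 := by
      have : -(u * v) ≤ R := by linarith
      nlinarith
    have h4 : 0 ≤ (u * v) * ((4 - 8 * κ) * R - (1 - κ) * (u * v)) :=
      mul_nonneg_of_nonpos_of_nonpos hs h3
    nlinarith
  · have key : ∀ x y : ℝ, x ^ 2 ≤ H → 0 < x * y → y ^ 2 ≤ x ^ 2 →
        0 ≤ κ * (4 * R - x * y) ^ 2 - (2 * R - x * y) ^ 2 - 4 * κ * R * (x - y) ^ 2 := by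
      intro x y hx hxy hyx
      have h1 : y ^ 2 ≤ x * y := by
        have : (y ^ 2) ^ 2 ≤ (x * y) ^ 2 := by
          rw [mul_pow]
          nlinarith [sq_nonneg y]
        exact (abs_le_of_sq_le_sq this hxy.le |> le_trans (le_abs_self _))
      have h2 : x * y ≤ 4 * R := by nlinarith [sq_nonneg (x - y)]
      have h3 : (x - y) ^ 2 ≤ H - x * y := by nlinarith
      have h4 : 4 * R * (κ * (x - y) ^ 2) ≤ 4 * R * (κ * (H - x * y)) :=
        mul_le_mul_of_nonneg_left (mul_le_mul_of_nonneg_left h3 (by linarith)) (by positivity)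
      have h5 : 4 * R * (κ * H) ≤ 4 * R * ((4 * κ - 1) * R) :=
        mul_le_mul_of_nonneg_left hH (by positivity)
      have h6 : 0 ≤ (x * y) * ((1 - κ) * (4 * R - x * y)) :=
        mul_nonneg hxy.le (mul_nonneg (by linarith) (by linarith))
      nlinarith
    rcases le_total (v ^ 2) (u ^ 2) with h | h
    · exact key u v hu hs h
    · have := key v u hv (by linarith [mul_comm u v]) h
      have e2 : v * u = u * v := mul_comm v u
      have e3 : (v - u) ^ 2 = (u - v) ^ 2 := by ring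
      rw [e2, e3] at this
      exact this

/-! ### The drawing -/

/-- The distance of two points of two segments. -/
theorem dist_identity (a b k l : E3) (s u : ℝ) :
    ‖((1 - s) • a + s • b) - ((1 - u) • k + u • l)‖ ^ 2 =
      (1 - s) * (1 - u) * ‖k - a‖ ^ 2 + (1 - s) * u * ‖l - a‖ ^ 2 + s * (1 - u) * ‖k - b‖ ^ 2 +
        s * u * ‖l - b‖ ^ 2 - s * (1 - s) * ‖b - a‖ ^ 2 - u * (1 - u) * ‖l - k‖ ^ 2 := by
  simp only [EuclideanSpace.real_norm_sq_eq, Fin.sum_univ_three, PiLp.sub_apply, PiLp.add_apply,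
    PiLp.smul_apply, smul_eq_mul]
  ring

theorem proj_comb (e a b : E3) (s : ℝ) :
    (1 - s) • proj e a + s • proj e b = proj e ((1 - s) • a + s • b) := by
  unfold proj
  rw [inner_add_right, inner_smul_right, inner_smul_right]
  module

theorem pos_comb (a' b' a b : E3) (s : ℝ) :
    (1 - s) • pos a' b' a + s • pos a' b' b = pos a' b' ((1 - s) • a + s • b) := by
  apply Complex.ext
  · simp [pos, inner_add_right, inner_smul_right]
  · simp [pos, inner_add_right, inner_smul_right]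

theorem norm_of_pos_eq {e a b x y : E3}
    (hab : ∀ x : E3, ‖x‖ ^ 2 = (inner ℝ a x) ^ 2 + (inner ℝ b x) ^ 2 + (inner ℝ e x) ^ 2)
    (h : pos a b x = pos a b y) : ‖x - y‖ ^ 2 = (inner ℝ e (x - y)) ^ 2 := by
  have h1 : inner ℝ a x = inner ℝ a y := congrArg Complex.re h
  have h2 : inner ℝ b x = inner ℝ b y := congrArg Complex.im h
  rw [hab, inner_sub_right a, inner_sub_right b, h1, h2]
  ring

/-- Two points with the same projection. -/
theorem norm_of_proj_eq {e x y : E3} (he : ‖e‖ = 1) (h : proj e x = proj e y) :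
    ‖x - y‖ ^ 2 = (inner ℝ e (x - y)) ^ 2 := by
  have h1 : x - y = (inner ℝ e (x - y)) • e := by
    unfold proj at h
    rw [inner_sub_right, sub_smul]
    have h2 : x = y - inner ℝ e y • e + inner ℝ e x • e := by rw [← h]; abel
    nth_rewrite 1 [h2]
    abel
  have h3 : ‖x - y‖ ^ 2 = ‖(inner ℝ e (x - y)) • e‖ ^ 2 := by rw [← h1]
  rw [h3, norm_smul, he, mul_one, Real.norm_eq_abs, sq_abs]

theorem mem_seg {F : Type} [AddCommGroup F] [Module ℝ F] {p q x : F} (h : x ∈ segment ℝ p q) :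
    ∃ s : ℝ, 0 ≤ s ∧ s ≤ 1 ∧ x = (1 - s) • p + s • q := by
  obtain ⟨a, b, ha, hb, hab, hx⟩ := h
  refine ⟨b, hb, by linarith, ?_⟩
  rw [← hx, ← hab]
  congr 2
  ring

theorem common_alg {R K h s u β μ : ℝ} (hR : 0 < R) (s0 : 0 ≤ s) (u0 : 0 ≤ u) (hus : u ≤ s)
    (a1 : |β| ≤ h) (a3 : |β - μ| ≤ h) (hh : h ^ 2 < 2 * R) (hK : 4 * R ≤ K)
    (he : 4 * R * (s - u) ^ 2 + s * u * K = (s * β - u * μ) ^ 2) : s = 0 := by
  have b1 := abs_le.1 a1
  have b3 := abs_le.1 a3
  have m1 := mul_le_mul_of_nonneg_left b1.2 (sub_nonneg.2 hus)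
  have m2 := mul_le_mul_of_nonneg_left b1.1 (sub_nonneg.2 hus)
  have m3 := mul_le_mul_of_nonneg_left b3.2 u0
  have m4 := mul_le_mul_of_nonneg_left b3.1 u0
  have d1 : (s * β - u * μ) ^ 2 ≤ (s * h) ^ 2 := by
    refine sq_le_sq' ?_ ?_ <;> linarith
  have d2 : s * u * (4 * R) ≤ s * u * K := mul_le_mul_of_nonneg_left hK (mul_nonneg s0 u0)
  have d3 : 0 ≤ R * (s - 2 * u) ^ 2 := mul_nonneg hR.le (sq_nonneg _)
  by_contra hs0
  have hs1 : 0 < s ^ 2 := by positivity
  have d4 : h ^ 2 * s ^ 2 < 2 * R * s ^ 2 := mul_lt_mul_of_pos_right hh hs1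
  have d5 : 0 < R * s ^ 2 := mul_pos hR hs1
  nlinarith

section drawing

variable {ι : Type} {c : ι → E3} {r h : ℝ} {e : E3} {F : Type} [AddCommGroup F] [Module ℝ F]
  {L : E3 → F}

omit [AddCommGroup F] [Module ℝ F] in
theorem proj_inj (hc : IsPacking c r)
    (he : ∀ x y : E3, L x = L y → ‖x - y‖ ^ 2 = (inner ℝ e (x - y)) ^ 2) (hs : InSlab c e h)
    (hh : h ^ 2 < 2 * r ^ 2) : Function.Injective fun i => L (c i) := by
  intro i j hij
  by_contra hne
  have h1 := he _ _ (show L (c j) = L (c i) from hij.symm)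
  have h2 := dist_ge hc hne
  have h3 : (inner ℝ e (c j - c i)) ^ 2 ≤ h ^ 2 :=
    sq_le_sq' (by linarith [(abs_le.1 (hs i j)).1]) (abs_le.1 (hs i j)).2
  have := hc.1
  nlinarith

theorem no_vertex (hc : IsPacking c r) (hL : ∀ (a b : E3) (s : ℝ), (1 - s) • L a + s • L b = L ((1 - s) • a + s • b))
    (he : ∀ x y : E3, L x = L y → ‖x - y‖ ^ 2 = (inner ℝ e (x - y)) ^ 2) (hs : InSlab c e h)
    (hh : h ^ 2 < 2 * r ^ 2) {i j k : ι} (hij : (contactGraph c r).Adj i j)
    (hk : L (c k) ∈ segment ℝ (L (c i)) (L (c j))) : k = i ∨ k = j := by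
  by_contra hcon
  push Not at hcon
  obtain ⟨s, s0, s1, hx⟩ := mem_seg hk
  rw [hL] at hx
  have h1 := he _ _ hx.symm
  have h2 := dist_identity (c i) (c j) (c k) (c k) s 0
  simp only [sub_zero, one_smul, zero_smul, add_zero, mul_one, mul_zero, zero_mul] at h2
  have h3 := dist_adj hc hij
  have h4 := dist_ge hc hcon.1.symm
  have h5 := dist_ge hc hcon.2.symm
  have h6 : inner ℝ e ((1 - s) • c i + s • c j - c k) =
      (1 - s) * inner ℝ e (c i - c k) + s * inner ℝ e (c j - c k) := by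
    rw [inner_sub_right, inner_add_right, inner_smul_right, inner_smul_right, inner_sub_right,
      inner_sub_right]
    ring
  have a1 := abs_le.1 (hs k i)
  have a2 := abs_le.1 (hs k j)
  have h7 : (inner ℝ e ((1 - s) • c i + s • c j - c k)) ^ 2 ≤ h ^ 2 := by
    rw [h6]
    refine sq_le_sq' ?_ ?_ <;> nlinarith
  rw [h2, h3] at h1
  have hr := hc.1
  have h8 : (1 - s) * (2 * r) ^ 2 ≤ (1 - s) * ‖c k - c i‖ ^ 2 :=
    mul_le_mul_of_nonneg_left h4 (by linarith)
  have h9 : s * (2 * r) ^ 2 ≤ s * ‖c k - c j‖ ^ 2 := mul_le_mul_of_nonneg_left h5 s0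
  have h10 : s * (1 - s) * (2 * r) ^ 2 ≤ 1 / 4 * (2 * r) ^ 2 :=
    mul_le_mul_of_nonneg_right (by nlinarith [sq_nonneg (s - 1 / 2)]) (sq_nonneg _)
  nlinarith

theorem no_crossing (hc : IsPacking c r) (hL : ∀ (a b : E3) (s : ℝ), (1 - s) • L a + s • L b = L ((1 - s) • a + s • b))
    (he : ∀ x y : E3, L x = L y → ‖x - y‖ ^ 2 = (inner ℝ e (x - y)) ^ 2) (hs : InSlab c e h)
    (hh : h ^ 2 < 2 * r ^ 2) {i j k l : ι} (hij : (contactGraph c r).Adj i j)
    (hkl : (contactGraph c r).Adj k l) (h1 : i ≠ k) (h2 : i ≠ l) (h3 : j ≠ k) (h4 : j ≠ l)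
    {x : F} (hx : x ∈ segment ℝ (L (c i)) (L (c j)))
    (hx' : x ∈ segment ℝ (L (c k)) (L (c l))) : False := by
  obtain ⟨s, s0, s1, hx⟩ := mem_seg hx
  obtain ⟨u, u0, u1, hx'⟩ := mem_seg hx'
  rw [hL] at hx hx'
  rw [hx] at hx'
  have e1 := he _ _ hx'
  rw [dist_identity, dist_adj hc hij, dist_adj hc hkl] at e1
  have e2 : inner ℝ e (((1 - s) • c i + s • c j) - ((1 - u) • c k + u • c l)) =
      (1 - s) * (1 - u) * inner ℝ e (c i - c k) + (1 - s) * u * inner ℝ e (c i - c l) +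
        s * (1 - u) * inner ℝ e (c j - c k) + s * u * inner ℝ e (c j - c l) := by
    simp only [inner_sub_right, inner_add_right, inner_smul_right]
    ring
  have w1 : 0 ≤ (1 - s) * (1 - u) := mul_nonneg (by linarith) (by linarith)
  have w2 : 0 ≤ (1 - s) * u := mul_nonneg (by linarith) u0
  have w3 : 0 ≤ s * (1 - u) := mul_nonneg s0 (by linarith)
  have w4 : 0 ≤ s * u := mul_nonneg s0 u0
  have a1 := abs_le.1 (hs k i)
  have a2 := abs_le.1 (hs l i)
  have a3 := abs_le.1 (hs k j)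
  have a4 := abs_le.1 (hs l j)
  have e3 : (inner ℝ e (((1 - s) • c i + s • c j) - ((1 - u) • c k + u • c l))) ^ 2 ≤ h ^ 2 := by
    rw [e2]
    have m1 := mul_le_mul_of_nonneg_left a1.2 w1
    have m2 := mul_le_mul_of_nonneg_left a2.2 w2
    have m3 := mul_le_mul_of_nonneg_left a3.2 w3
    have m4 := mul_le_mul_of_nonneg_left a4.2 w4
    have n1 := mul_le_mul_of_nonneg_left a1.1 w1
    have n2 := mul_le_mul_of_nonneg_left a2.1 w2
    have n3 := mul_le_mul_of_nonneg_left a3.1 w3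
    have n4 := mul_le_mul_of_nonneg_left a4.1 w4
    refine sq_le_sq' ?_ ?_ <;> linarith
  have b1 := mul_le_mul_of_nonneg_left (dist_ge hc h1) w1
  have b2 := mul_le_mul_of_nonneg_left (dist_ge hc h2) w2
  have b3 := mul_le_mul_of_nonneg_left (dist_ge hc h3) w3
  have b4 := mul_le_mul_of_nonneg_left (dist_ge hc h4) w4
  have c1 : s * (1 - s) * (2 * r) ^ 2 ≤ 1 / 4 * (2 * r) ^ 2 :=
    mul_le_mul_of_nonneg_right (by nlinarith [sq_nonneg (s - 1 / 2)]) (sq_nonneg _)
  have c2 : u * (1 - u) * (2 * r) ^ 2 ≤ 1 / 4 * (2 * r) ^ 2 :=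
    mul_le_mul_of_nonneg_right (by nlinarith [sq_nonneg (u - 1 / 2)]) (sq_nonneg _)
  rw [← e1] at e3
  nlinarith

theorem common_end (hc : IsPacking c r) (hL : ∀ (a b : E3) (s : ℝ), (1 - s) • L a + s • L b = L ((1 - s) • a + s • b))
    (he : ∀ x y : E3, L x = L y → ‖x - y‖ ^ 2 = (inner ℝ e (x - y)) ^ 2) (hs : InSlab c e h)
    (hh : h ^ 2 < 2 * r ^ 2) {i j l : ι} (hij : (contactGraph c r).Adj i j)
    (hil : (contactGraph c r).Adj i l) (h1 : j ≠ l)
    {x : F} (hx : x ∈ segment ℝ (L (c i)) (L (c j)))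
    (hx' : x ∈ segment ℝ (L (c i)) (L (c l))) : x = L (c i) := by
  obtain ⟨s, s0, s1, hx⟩ := mem_seg hx
  obtain ⟨u, u0, u1, hx'⟩ := mem_seg hx'
  have hx0 := hx
  rw [hL] at hx hx'
  rw [hx] at hx'
  have e1 := he _ _ hx'
  rw [dist_identity, dist_adj hc hij, dist_adj hc hil, sub_self, norm_zero] at e1
  have e4 : ‖c i - c j‖ ^ 2 = (2 * r) ^ 2 := by rw [norm_sub_rev]; exact dist_adj hc hij
  rw [e4] at e1
  have e2 : inner ℝ e (((1 - s) • c i + s • c j) - ((1 - u) • c i + u • c l)) =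
      s * inner ℝ e (c j - c i) - u * inner ℝ e (c l - c i) := by
    simp only [inner_sub_right, inner_add_right, inner_smul_right]
    ring
  have hr := hc.1
  have a1 := hs i j
  have a2 := hs i l
  have a3 : |inner ℝ e (c j - c i) - inner ℝ e (c l - c i)| ≤ h := by
    rw [← inner_sub_right, show c j - c i - (c l - c i) = c j - c l by abel]
    exact hs l j
  rw [e2] at e1
  have main : s = 0 := by
    rcases le_total u s with hus | hus
    · refine common_alg (R := r ^ 2) (K := ‖c l - c j‖ ^ 2) (by positivity) s0 u0 hus a1 a3 hh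
        ?_ ?_
      · have := dist_ge hc h1
        linarith
      · rw [← e1]
        ring
    · have h0 : u = 0 := by
        refine common_alg (R := r ^ 2) (K := ‖c l - c j‖ ^ 2) (by positivity) u0 s0 hus a2
          (by rw [abs_sub_comm]; exact a3) hh ?_ ?_
        · have := dist_ge hc h1
          linarith
        · have : (u * inner ℝ e (c l - c i) - s * inner ℝ e (c j - c i)) ^ 2 =
              (s * inner ℝ e (c j - c i) - u * inner ℝ e (c l - c i)) ^ 2 := by ring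
          rw [this, ← e1]
          ring
      linarith
  rw [hx0, main]
  simp

end drawing

theorem drawing {ι : Type} {c : ι → E3} {r h : ℝ} {e : E3} {F : Type} [AddCommGroup F] [Module ℝ F]
    {L : E3 → F} (hc : IsPacking c r) (hL : ∀ (a b : E3) (s : ℝ), (1 - s) • L a + s • L b = L ((1 - s) • a + s • b))
    (he : ∀ x y : E3, L x = L y → ‖x - y‖ ^ 2 = (inner ℝ e (x - y)) ^ 2)
    (hs : InSlab c e h) (hh : h ^ 2 < 2 * r ^ 2) :
    StraightDrawing (contactGraph c r) fun i => L (c i) where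
  inj := proj_inj hc he hs hh
  vertex i j k hij hk := no_vertex hc hL he hs hh hij hk
  edge i j k l hij hkl n1 n2 x hx hx' := by
    by_cases h1 : i = k
    · subst h1
      have h2 : j ≠ l := fun h => n1 ⟨rfl, h⟩
      exact ⟨i, Or.inl rfl, Or.inl rfl, common_end hc hL he hs hh hij hkl h2 hx hx'⟩
    · by_cases h2 : i = l
      · subst h2
        have h3 : j ≠ k := fun h => n2 ⟨rfl, h⟩
        refine ⟨i, Or.inl rfl, Or.inr rfl, common_end hc hL he hs hh hij hkl.symm h3 hx ?_⟩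
        rw [segment_symm]
        exact hx'
      · by_cases h3 : j = k
        · subst h3
          have h4 : i ≠ l := h2
          refine ⟨j, Or.inr rfl, Or.inl rfl, common_end hc hL he hs hh hij.symm hkl h4 ?_ hx'⟩
          rw [segment_symm]
          exact hx
        · by_cases h4 : j = l
          · subst h4
            refine ⟨j, Or.inr rfl, Or.inr rfl,
              common_end hc hL he hs hh hij.symm hkl.symm h1 ?_ ?_⟩
            · rw [segment_symm]
              exact hx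
            · rw [segment_symm]
              exact hx'
          · exact (no_crossing hc hL he hs hh hij hkl h1 h2 h3 h4 hx hx').elim

/-- Four colours for thin slabs. -/
theorem four {ι : Type} [Finite ι] {c : ι → E3} {r h : ℝ} {e : E3} (hc : IsPacking c r)
    (he : ‖e‖ = 1) (hs : InSlab c e h) (hh : h ^ 2 ≤ (24 * √2 - 32) * r ^ 2) :
    (contactGraph c r).Colorable 4 := by
  have hr := hc.1
  have hr2 : 0 < r ^ 2 := by positivity
  have sq : ∀ u : ℝ, |u| ≤ h → u ^ 2 ≤ h ^ 2 := fun u hu =>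
    sq_le_sq' (by linarith [(abs_le.1 hu).1]) (abs_le.1 hu).2
  have s2 : √2 ^ 2 = 2 := Real.sq_sqrt (by norm_num)
  have s0 : 0 ≤ √2 := Real.sqrt_nonneg 2
  have s1 : √2 ≤ 1.4143 := by
    by_contra hcon
    push Not at hcon
    nlinarith
  have s3 : √2 < 2 := by linarith
  have e1 : Real.cos (Real.pi / ((4 : ℕ) : ℝ)) = √2 / 2 := by
    push_cast
    exact Real.cos_pi_div_four
  have e2 : Real.cos (Real.pi / ((4 : ℕ) : ℝ)) ^ 2 = 1 / 2 := by rw [e1, div_pow, s2]; norm_num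
  have hh2 : h ^ 2 < 2 * r ^ 2 := by nlinarith
  obtain ⟨a, b, hab⟩ := exists_basis e he
  refine four_of_drawing (contactGraph c r) (fun i => pos a b (c i))
    (drawing hc (fun x y s => pos_comb a b x y s) (fun x y => norm_of_pos_eq hab) hs hh2)
    fun s hne => ?_
  obtain ⟨v, hv, h1, h2⟩ := local_data hc hab hs (by linarith) 4 (by rw [e1]; positivity)
    (fun u v hu hv huv => by
      rw [e2]
      exact poly4 hr2 hh (sq u hu) (sq v hv) (sq _ huv)) s hne
  have hn0 : ∀ w ∈ s, (contactGraph c r).Adj v w → pos a b (c w) - pos a b (c v) ≠ 0 := by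
    intro w hw hvw h0
    rcases h1 w hw hvw with h | h
    · rw [h0] at h; simp at h
    · rw [h0] at h; simp at h
  refine ⟨v, hv, fun w hw hvw => arg_mem (h1 w hw hvw), fun w hw w' hw' hvw hvw' hww heq => ?_,
    fun t ht => ?_⟩
  · have h3 := h2 w hw w' hw' hvw hvw' hww
    have h4 := hn0 w hw hvw
    have h5 := hn0 w' hw' hvw'
    have c5 : Real.cos ((pos a b (c w) - pos a b (c v)).arg - (pos a b (c w') - pos a b (c v)).arg) *
        (‖pos a b (c w) - pos a b (c v)‖ * ‖pos a b (c w') - pos a b (c v)‖) =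
        (pos a b (c w) - pos a b (c v)).re * (pos a b (c w') - pos a b (c v)).re +
          (pos a b (c w) - pos a b (c v)).im * (pos a b (c w') - pos a b (c v)).im := by
      rw [Real.cos_sub, Complex.cos_arg h4, Complex.cos_arg h5, Complex.sin_arg, Complex.sin_arg]
      have h6 := (norm_pos_iff.2 h4).ne'
      have h7 := (norm_pos_iff.2 h5).ne'
      field_simp
    rw [heq, sub_self, Real.cos_zero, one_mul] at c5
    have h8 := mul_pos (norm_pos_iff.2 h4) (norm_pos_iff.2 h5)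
    rw [← c5, e1] at h3
    nlinarith
  · exact card_le t (fun w => pos a b (c w) - pos a b (c v)) 4 (by norm_num)
      (fun w hw => h1 w (ht w hw).1 (ht w hw).2)
      (fun w hw w' hw' hww => h2 w (ht w hw).1 w' (ht w' hw').1 (ht w hw).2 (ht w' hw').2 hww)

/-- Eight colours for slabs of twice the thickness. -/
theorem eight {ι : Type} [Finite ι] {c : ι → E3} {r h : ℝ} {e : E3} (hc : IsPacking c r)
    (he : ‖e‖ = 1) (hs : InSlab c e h) (hh : h ^ 2 ≤ 4 * (24 * √2 - 32) * r ^ 2) :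
    (contactGraph c r).Colorable 8 := by
  classical
  rcases isEmpty_or_nonempty ι with hι | hι
  · exact ⟨SimpleGraph.Coloring.mk (fun i => hι.elim i) fun {i} => hι.elim i⟩
  obtain ⟨o, ho⟩ := Finite.exists_min fun i => inner ℝ e (c i)
  have hpart : ∀ S : Set ι, (∀ i ∈ S, ∀ j ∈ S, |inner ℝ e (c j - c i)| ≤ h / 2) →
      ∃ f : ι → Fin 4, ∀ i ∈ S, ∀ j ∈ S, (contactGraph c r).Adj i j → f i ≠ f j := by
    intro S hS
    have h1 : IsPacking (fun i : S => c i) r :=
      ⟨hc.1, fun i j hij => hc.2 i j fun h => hij (Subtype.ext h)⟩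
    have h2 : InSlab (fun i : S => c i) e (h / 2) := fun i j => hS i i.2 j j.2
    obtain ⟨f⟩ := four h1 he h2 (by rw [div_pow]; linarith)
    refine ⟨fun i => if hi : i ∈ S then f ⟨i, hi⟩ else 0, fun i hi j hj hij => ?_⟩
    simp only [dif_pos hi, dif_pos hj]
    exact f.valid (show (contactGraph (fun i : S => c i) r).Adj ⟨i, hi⟩ ⟨j, hj⟩ from
      ⟨fun h => hij.1 (congrArg Subtype.val h), hij.2⟩)
  obtain ⟨S, hS⟩ : ∃ S : Set ι, S = {i | inner ℝ e (c i) - inner ℝ e (c o) ≤ h / 2} := ⟨_, rfl⟩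
  have hmem : ∀ i, i ∈ S ↔ inner ℝ e (c i) - inner ℝ e (c o) ≤ h / 2 := fun i => by rw [hS]; rfl
  have hle : ∀ i, inner ℝ e (c i) - inner ℝ e (c o) ≤ h := fun i => by
    rw [← inner_sub_right]
    exact (abs_le.1 (hs o i)).2
  obtain ⟨f, hf⟩ := hpart S (fun i hi j hj => by
    have h1 := (hmem i).1 hi
    have h2 := (hmem j).1 hj
    have h3 := ho i
    have h4 := ho j
    rw [inner_sub_right, abs_le]
    constructor <;> linarith)
  obtain ⟨g, hg⟩ := hpart Sᶜ (fun i hi j hj => by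
    have h1 := not_le.1 (mt (hmem i).2 hi)
    have h2 := not_le.1 (mt (hmem j).2 hj)
    have h3 := hle i
    have h4 := hle j
    rw [inner_sub_right, abs_le]
    constructor <;> linarith)
  have F : (contactGraph c r).Coloring (Fin 4 ⊕ Fin 4) :=
    SimpleGraph.Coloring.mk (fun i => if i ∈ S then Sum.inl (f i) else Sum.inr (g i)) (by
      intro i j hij
      by_cases h1 : i ∈ S
      · by_cases h2 : j ∈ S
        · simp only [if_pos h1, if_pos h2]
          exact fun h => hf i h1 j h2 hij (Sum.inl_injective h)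
        · simp only [if_pos h1, if_neg h2]
          exact Sum.inl_ne_inr
      · by_cases h2 : j ∈ S
        · simp only [if_neg h1, if_pos h2]
          exact Sum.inr_ne_inl
        · simp only [if_neg h1, if_neg h2]
          exact fun h => hg i h1 j h2 hij (Sum.inr_injective h))
  have := F.colorable
  rwa [Fintype.card_sum, Fintype.card_fin] at this

/-- Six colours, seven colours. -/
theorem six_seven {ι : Type} [Finite ι] {c : ι → E3} {r h : ℝ} {e : E3} (hc : IsPacking c r)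
    (he : ‖e‖ = 1) (hs : InSlab c e h) (m : ℕ) (hm : 5 ≤ m)
    (hh : Real.cos (Real.pi / m) ^ 2 * h ^ 2 ≤ (4 * Real.cos (Real.pi / m) ^ 2 - 1) * r ^ 2) :
    (contactGraph c r).Colorable (m + 1) := by
  have hr := hc.1
  have hr2 : 0 < r ^ 2 := by positivity
  have sq : ∀ u : ℝ, |u| ≤ h → u ^ 2 ≤ h ^ 2 := fun u hu =>
    sq_le_sq' (by linarith [(abs_le.1 hu).1]) (abs_le.1 hu).2
  have s2 : √5 ^ 2 = 5 := Real.sq_sqrt (by norm_num)
  have s0 : 0 ≤ √5 := Real.sqrt_nonneg 5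
  have s1 : 2.2 ≤ √5 := by
    by_contra hcon
    push Not at hcon
    nlinarith
  have hpi := Real.pi_pos
  have hm' : (5 : ℝ) ≤ m := by exact_mod_cast hm
  have hm0 : (0 : ℝ) < m := by linarith
  have e1 : Real.cos (Real.pi / 5) ≤ Real.cos (Real.pi / m) := by
    refine Real.cos_le_cos_of_nonneg_of_le_pi (by positivity) (by linarith) ?_
    exact div_le_div_of_nonneg_left hpi.le (by norm_num) hm'
  rw [Real.cos_pi_div_five] at e1
  have e2 : 0 < Real.cos (Real.pi / m) := by linarith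
  have e3 : 5 / 9 ≤ Real.cos (Real.pi / m) ^ 2 := by nlinarith
  have e4 : Real.cos (Real.pi / m) ^ 2 ≤ 1 := Real.cos_sq_le_one _
  have h4 : h ^ 2 < 4 * r ^ 2 := by
    have : 0 < Real.cos (Real.pi / m) ^ 2 := by positivity
    nlinarith
  refine colour hc he hs h4 m (by omega) e2.le ?_
  intro u v hu hv huv
  exact polyk e3 e4 hr2 hh (sq u hu) (sq v hv) (sq _ huv)

/-- The upper bounds. -/
theorem upper {ι : Type} [Finite ι] {c : ι → E3} {r h : ℝ} {e : E3} (hc : IsPacking c r)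
    (he : ‖e‖ = 1) (hs : InSlab c e h) :
    (h ^ 2 < 2 * r ^ 2 → StraightDrawing (contactGraph c r) fun i => proj e (c i)) ∧
    (h ^ 2 ≤ (24 * √2 - 32) * r ^ 2 → (contactGraph c r).Colorable 4) ∧
    (h ^ 2 ≤ (2 * √5 - 2) * r ^ 2 → (contactGraph c r).Colorable 6) ∧
    (3 * h ^ 2 ≤ 8 * r ^ 2 → (contactGraph c r).Colorable 7) ∧
    (h ^ 2 ≤ 4 * (24 * √2 - 32) * r ^ 2 → (contactGraph c r).Colorable 8) := by
  have hr2 : 0 < r ^ 2 := by have := hc.1; positivity
  refine ⟨fun hh => drawing hc (fun a b s => proj_comb e a b s)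
    (fun x y => norm_of_proj_eq he) hs hh, fun hh => four hc he hs hh,
    fun hh => six_seven hc he hs 5 le_rfl ?_, fun hh => six_seven hc he hs 6 (by norm_num) ?_,
    fun hh => eight hc he hs hh⟩
  · have s2 : √5 ^ 2 = 5 := Real.sq_sqrt (by norm_num)
    have s0 : 0 ≤ √5 := Real.sqrt_nonneg 5
    have e1 : Real.cos (Real.pi / ((5 : ℕ) : ℝ)) ^ 2 = (3 + √5) / 8 := by
      push_cast
      rw [Real.cos_pi_div_five]
      nlinarith
    rw [e1]
    have h1 := mul_le_mul_of_nonneg_left hh (show 0 ≤ (3 + √5) / 8 by positivity)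
    have h2 : (3 + √5) / 8 * ((2 * √5 - 2) * r ^ 2) = (4 * ((3 + √5) / 8) - 1) * r ^ 2 := by
      have : (3 + √5) * (2 * √5 - 2) = 2 * √5 ^ 2 + 4 * √5 - 6 := by ring
      rw [s2] at this
      linear_combination (r ^ 2 / 8) * this
    rw [h2] at h1
    exact h1
  · have e1 : Real.cos (Real.pi / ((6 : ℕ) : ℝ)) ^ 2 = 3 / 4 := by
      push_cast
      rw [Real.cos_pi_div_six, div_pow, Real.sq_sqrt (by norm_num)]
      norm_num
    rw [e1]
    linarith

end Pool.Agent.Results.MP_fada92_co.ThinSlabs
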