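import Pool.Agent.Lib_helper34.TSS.Defs

/-!
MP_fada92_co.ThinSlabs: four colours needed (text of helper73, unchanged)
-/

set_option autoImplicit false

namespace Pool.Agent.Results.MP_fada92_co.ThinSlabs

open Metric

/-! ### Integer approximations -/

/-- The distance of the approximating points is at least `2.02`. -/
def Far (p q : ℤ × ℤ × ℤ) : Prop :=
  2020 ^ 2 ≤ (p.1 - q.1) ^ 2 + (p.2.1 - q.2.1) ^ 2 + (p.2.2 - q.2.2) ^ 2

instance (p q : ℤ × ℤ × ℤ) : Decidable (Far p q) := by unfold Far; infer_instance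

theorem norm3 (a b c a' b' c' : ℝ) : ‖(!₂[a, b, c] : E3) - !₂[a', b', c']‖ ^ 2 =
    (a - a') ^ 2 + (b - b') ^ 2 + (c - c') ^ 2 := by
  rw [EuclideanSpace.real_norm_sq_eq, Fin.sum_univ_three]
  simp

/-- The approximating points. -/
noncomputable def app (q : ℤ × ℤ × ℤ) : E3 := !₂[(q.1 : ℝ) / 1000, (q.2.1 : ℝ) / 1000, (q.2.2 : ℝ) / 1000]

theorem far_app {p q : ℤ × ℤ × ℤ} (h : Far p q) : 2.02 ≤ ‖app p - app q‖ := by
  have h1 : (2020 ^ 2 : ℝ) ≤ ((p.1 : ℝ) - q.1) ^ 2 + ((p.2.1 : ℝ) - q.2.1) ^ 2 +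
      ((p.2.2 : ℝ) - q.2.2) ^ 2 := by exact_mod_cast h
  have h2 : (2.02 : ℝ) ^ 2 ≤ ‖app p - app q‖ ^ 2 := by
    unfold app
    rw [norm3]
    nlinarith
  exact le_of_sq_le_sq h2 (norm_nonneg _)

theorem near {a b c : ℝ} {q : ℤ × ℤ × ℤ} (h1 : |a - q.1 / 1000| ≤ 1 / 200)
    (h2 : |b - q.2.1 / 1000| ≤ 1 / 200) (h3 : |c - q.2.2 / 1000| ≤ 1 / 200) :
    ‖(!₂[a, b, c] : E3) - app q‖ ≤ 1 / 100 := by
  have k1 := sq_le_sq' (abs_le.1 h1).1 (abs_le.1 h1).2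
  have k2 := sq_le_sq' (abs_le.1 h2).1 (abs_le.1 h2).2
  have k3 := sq_le_sq' (abs_le.1 h3).1 (abs_le.1 h3).2
  have h : ‖(!₂[a, b, c] : E3) - app q‖ ^ 2 ≤ (1 / 100) ^ 2 := by
    unfold app
    rw [norm3]
    linarith
  exact le_of_sq_le_sq h (by norm_num)

theorem dist_of_near {x y x' y' : E3} (hx : ‖x - x'‖ ≤ 1 / 100) (hy : ‖y - y'‖ ≤ 1 / 100)
    (h : 2.02 ≤ ‖x' - y'‖) : 4 ≤ ‖x - y‖ ^ 2 := by
  have h1 : ‖x' - y'‖ ≤ ‖x - x'‖ + ‖x - y‖ + ‖y - y'‖ := by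
    have : x' - y' = -(x - x') + (x - y) + (y - y') := by abel
    rw [this]
    calc ‖-(x - x') + (x - y) + (y - y')‖ ≤ ‖-(x - x') + (x - y)‖ + ‖y - y'‖ := norm_add_le _ _
      _ ≤ ‖-(x - x')‖ + ‖x - y‖ + ‖y - y'‖ := by gcongr; exact norm_add_le _ _
      _ = _ := by rw [norm_neg]
  have h2 : 2 ≤ ‖x - y‖ := by linarith
  nlinarith

/-! ### A ring of six rhombi -/

/-- Approximations of the apices and of the other balls, in thousandths. -/
def pa : Fin 7 → ℤ × ℤ × ℤ := ![(1000, 0, 0), (3508, 2389, 0), (3049, 5822, 0), (0, 7467, 0), (-3049, 5822, 0), (-3508, 2389, 0), (-1000, 0, 0)]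

def pt : Fin 6 → Fin 2 → ℤ × ℤ × ℤ := ![
  ![(1565, 1919, 0), (2944, 470, 0)],
  ![(2287, 3973, 0), (4270, 4239, 0)],
  ![(1049, 5765, 0), (1999, 7525, 0)],
  ![(-1049, 5765, 0), (-1999, 7525, 0)],
  ![(-2287, 3973, 0), (-4270, 4239, 0)],
  ![(-1565, 1919, 0), (-2944, 470, 0)]]

theorem far4 : ∀ i j : Fin 7, i ≠ j → (i = 0 ∧ j = 6) ∨ (i = 6 ∧ j = 0) ∨ Far (pa i) (pa j) := by
  decide +kernel

theorem far5 : ∀ i : Fin 7, ∀ k : Fin 6, ∀ t : Fin 2,
    i = k.castSucc ∨ i = k.succ ∨ Far (pa i) (pt k t) := by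
  decide +kernel

theorem far6 : ∀ k k' : Fin 6, ∀ t t' : Fin 2, k = k' ∨ Far (pt k t) (pt k' t') := by
  decide +kernel

/-- The data: `s = √3`, `v = √(1 - x²)` with `x = s / 6 + K`. -/
structure Data' (s v : ℝ) : Prop where
  s0 : 0 < s
  s2 : s ^ 2 = 3
  v0 : 0 < v
  v2 : (s / 6 + (21 / 29 - 15 / 113)) ^ 2 + v ^ 2 = 1

theorem exists_data' : ∃ s v : ℝ, Data' s v := by
  obtain ⟨s, hs⟩ : ∃ s, s = √3 := ⟨_, rfl⟩
  have s0 : 0 < s := by rw [hs]; positivity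
  have s2 : s ^ 2 = 3 := by rw [hs, Real.sq_sqrt (by norm_num)]
  have s3 : s ≤ 1.74 := by nlinarith
  obtain ⟨x, hx⟩ : ∃ x, x = s / 6 + (21 / 29 - 15 / 113) := ⟨_, rfl⟩
  have h1 : 0 ≤ x := by rw [hx]; linarith
  have h2 : x ^ 2 < 1 := by
    have : x ≤ 0.9 := by rw [hx]; linarith
    nlinarith
  refine ⟨s, √(1 - x ^ 2), s0, s2, Real.sqrt_pos.2 (by linarith), ?_⟩
  rw [Real.sq_sqrt (by linarith), ← hx]
  ring

noncomputable def bx (s : ℝ) : Fin 7 → ℝ := ![1, 1 + 2 * s * (21 / 29),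
  1 + 2 * s * (21 / 29 - 15 / 113), 0, -(1 + 2 * s * (21 / 29 - 15 / 113)),
  -(1 + 2 * s * (21 / 29)), -1]

noncomputable def bY (s v : ℝ) : Fin 7 → ℝ := ![0, 2 * s * (20 / 29),
  2 * s * (20 / 29 + 112 / 113), 2 * s * (20 / 29 + 112 / 113) + 2 * (s * v),
  2 * s * (20 / 29 + 112 / 113), 2 * s * (20 / 29), 0]

noncomputable def wx (s : ℝ) : Fin 6 → ℝ := ![21 / 29, -(15 / 113),
  -(s / 6 + (21 / 29 - 15 / 113)), -(s / 6 + (21 / 29 - 15 / 113)), -(15 / 113), 21 / 29]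

noncomputable def wy (v : ℝ) : Fin 6 → ℝ := ![20 / 29, 112 / 113, v, -v, -(112 / 113), -(20 / 29)]

noncomputable def rhombi (s v : ℝ) : Fin 7 ⊕ Fin 6 × Fin 2 → E3
  | Sum.inl i => !₂[bx s i, bY s v i, 0]
  | Sum.inr (k, 0) => !₂[bx s k.castSucc + s * wx s k - wy v k,
      bY s v k.castSucc + s * wy v k + wx s k, 0]
  | Sum.inr (k, 1) => !₂[bx s k.castSucc + s * wx s k + wy v k,
      bY s v k.castSucc + s * wy v k - wx s k, 0]

theorem w_unit {s v : ℝ} (D : Data' s v) (k : Fin 6) : wx s k ^ 2 + wy v k ^ 2 = 1 := by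
  have := D.v2
  fin_cases k <;> simp [wx, wy] <;> linarith

theorem bx_hi {s v : ℝ} (D : Data' s v) (k : Fin 6) :
    bx s k.succ = bx s k.castSucc + 2 * s * wx s k := by
  have := D.s2
  fin_cases k <;> simp [bx, wx] <;> linarith

theorem bY_hi {s v : ℝ} (k : Fin 6) :
    bY s v k.succ = bY s v k.castSucc + 2 * s * wy v k := by
  fin_cases k <;> simp [bY, wy] <;> ring

theorem lo_p {s v : ℝ} (D : Data' s v) (k : Fin 6) (t : Fin 2) :
    ‖rhombi s v (Sum.inl k.castSucc) - rhombi s v (Sum.inr (k, t))‖ ^ 2 = 4 := by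
  have h1 := w_unit D k
  have h2 := D.s2
  obtain ⟨x, hx⟩ : ∃ x, x = wx s k := ⟨_, rfl⟩
  obtain ⟨y, hy⟩ : ∃ y, y = wy v k := ⟨_, rfl⟩
  fin_cases t <;> simp only [rhombi] <;>
    rw [norm3] <;> rw [← hx, ← hy] at h1 ⊢
  · linear_combination (s ^ 2 + 1) * h1 + h2
  · linear_combination (s ^ 2 + 1) * h1 + h2

theorem hi_p {s v : ℝ} (D : Data' s v) (k : Fin 6) (t : Fin 2) :
    ‖rhombi s v (Sum.inl k.succ) - rhombi s v (Sum.inr (k, t))‖ ^ 2 = 4 := by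
  have h1 := w_unit D k
  have h2 := D.s2
  have h5 := bx_hi D k
  have h6 := bY_hi (s := s) (v := v) k
  obtain ⟨x, hx⟩ : ∃ x, x = wx s k := ⟨_, rfl⟩
  obtain ⟨y, hy⟩ : ∃ y, y = wy v k := ⟨_, rfl⟩
  fin_cases t <;> simp only [rhombi] <;>
    rw [norm3, h5, h6] <;> rw [← hx, ← hy] at h1 ⊢
  · linear_combination (s ^ 2 + 1) * h1 + h2
  · linear_combination (s ^ 2 + 1) * h1 + h2

theorem p_p {s v : ℝ} (D : Data' s v) (k : Fin 6) (t t' : Fin 2) (htt : t ≠ t') :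
    ‖rhombi s v (Sum.inr (k, t)) - rhombi s v (Sum.inr (k, t'))‖ ^ 2 = 4 := by
  have h1 := w_unit D k
  obtain ⟨x, hx⟩ : ∃ x, x = wx s k := ⟨_, rfl⟩
  obtain ⟨y, hy⟩ : ∃ y, y = wy v k := ⟨_, rfl⟩
  fin_cases t <;> fin_cases t' <;> first | exact absurd rfl htt | skip
  all_goals simp only [rhombi]
  all_goals rw [norm3]
  all_goals rw [← hx, ← hy] at h1 ⊢
  · linear_combination 4 * h1
  · linear_combination 4 * h1

theorem b_b (s v : ℝ) :
    ‖rhombi s v (Sum.inl 0) - rhombi s v (Sum.inl 6)‖ ^ 2 = 4 := by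
  simp only [rhombi]
  rw [norm3]
  simp [bx, bY]
  norm_num

theorem bounds' {s v : ℝ} (D : Data' s v) : (1.73205 ≤ s ∧ s ≤ 1.73206) ∧
    (0.47481 ≤ v ∧ v ≤ 0.47487) ∧ 0.8224 ≤ s * v ∧ s * v ≤ 0.8226 := by
  obtain ⟨s0, s2, v0, v2⟩ := D
  have l1 : 1.73205 ≤ s := by
    by_contra hcon
    push Not at hcon
    nlinarith
  have l3 : s ≤ 1.73206 := by
    by_contra hcon
    push Not at hcon
    nlinarith
  obtain ⟨x, hx⟩ : ∃ x, x = s / 6 + (21 / 29 - 15 / 113) := ⟨_, rfl⟩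
  rw [← hx] at v2
  have x1 : 0.880067 ≤ x := by rw [hx]; linarith
  have x3 : x ≤ 0.880073 := by rw [hx]; linarith
  have v1 : 0.47481 ≤ v := by
    by_contra hcon
    push Not at hcon
    nlinarith
  have v3 : v ≤ 0.47487 := by
    by_contra hcon
    push Not at hcon
    nlinarith
  refine ⟨⟨l1, l3⟩, ⟨v1, v3⟩, ?_, ?_⟩
  · nlinarith
  · nlinarith

theorem near_b {s v : ℝ} (D : Data' s v) (i : Fin 7) :
    ‖rhombi s v (Sum.inl i) - app (pa i)‖ ≤ 1 / 100 := by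
  obtain ⟨⟨l1, l3⟩, ⟨v1, v3⟩, w1, w3⟩ := bounds' D
  simp only [rhombi]
  apply near
  · rw [abs_le]
    fin_cases i <;> simp [bx, pa] <;> constructor <;> linarith
  · rw [abs_le]
    fin_cases i <;> simp [bY, pa] <;> constructor <;> linarith
  · rw [abs_le]
    fin_cases i <;> simp [pa]

theorem near_p {s v : ℝ} (D : Data' s v) (k : Fin 6) (t : Fin 2) :
    ‖rhombi s v (Sum.inr (k, t)) - app (pt k t)‖ ≤ 1 / 100 := by
  obtain ⟨⟨l1, l3⟩, ⟨v1, v3⟩, w1, w3⟩ := bounds' D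
  have l2 := D.s2
  fin_cases t
  · simp only [rhombi]
    apply near
    · rw [abs_le]
      fin_cases k <;> simp [bx, wx, wy, pt] <;> constructor <;> linarith
    · rw [abs_le]
      fin_cases k <;> simp [bY, wx, wy, pt] <;> constructor <;> linarith
    · rw [abs_le]
      fin_cases k <;> simp [pt]
  · simp only [rhombi]
    apply near
    · rw [abs_le]
      fin_cases k <;> simp [bx, wx, wy, pt] <;> constructor <;> linarith
    · rw [abs_le]
      fin_cases k <;> simp [bY, wx, wy, pt] <;> constructor <;> linarith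
    · rw [abs_le]
      fin_cases k <;> simp [pt]

theorem three_col : ∀ a b x y : Fin 3, a ≠ x → a ≠ y → b ≠ x → b ≠ y → x ≠ y → a = b := by
  decide +kernel

theorem rhombi_far {s v : ℝ} (D : Data' s v) (p q : Fin 7 ⊕ Fin 6 × Fin 2) (hpq : p ≠ q) :
    4 ≤ ‖rhombi s v p - rhombi s v q‖ ^ 2 := by
  rcases p with i | ⟨k, t⟩
  · rcases q with j | ⟨k', t'⟩
    · rcases far4 i j (fun h => hpq (by rw [h])) with ⟨h1, h2⟩ | ⟨h1, h2⟩ | h
      · rw [h1, h2, b_b]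
      · rw [h1, h2, norm_sub_rev, b_b]
      · exact dist_of_near (near_b D i) (near_b D j) (far_app h)
    · rcases far5 i k' t' with h1 | h1 | h
      · rw [h1, lo_p D]
      · rw [h1, hi_p D]
      · exact dist_of_near (near_b D i) (near_p D k' t') (far_app h)
  · rcases q with j | ⟨k', t'⟩
    · rw [norm_sub_rev]
      rcases far5 j k t with h1 | h1 | h
      · rw [h1, lo_p D]
      · rw [h1, hi_p D]
      · exact dist_of_near (near_b D j) (near_p D k t) (far_app h)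
    · rcases far6 k k' t t' with h1 | h
      · subst h1
        rw [p_p D k t t' fun h => hpq (by rw [h])]
      · exact dist_of_near (near_p D k t) (near_p D k' t') (far_app h)

theorem rhombi_height (s v : ℝ) (p : Fin 7 ⊕ Fin 6 × Fin 2) : rhombi s v p 2 = 0 := by
  rcases p with i | ⟨k, t⟩
  · simp [rhombi]
  · fin_cases t <;> simp [rhombi]

/-- A packing of 19 balls with coplanar centres which needs four colours. -/
theorem four_needed (r h : ℝ) (hr : 0 < r) (hh0 : 0 ≤ h) :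
    ∃ (c : Fin 7 ⊕ Fin 6 × Fin 2 → E3) (e : E3), IsPacking c r ∧ ‖e‖ = 1 ∧ InSlab c e h ∧
      ¬ (contactGraph c r).Colorable 3 := by
  obtain ⟨s, v, D⟩ := exists_data'
  have hdist : ∀ p q, ‖r • rhombi s v p - r • rhombi s v q‖ ^ 2 =
      r ^ 2 * ‖rhombi s v p - rhombi s v q‖ ^ 2 := fun p q => by
    rw [← smul_sub, norm_smul, mul_pow, Real.norm_eq_abs, sq_abs]
  refine ⟨fun p => r • rhombi s v p, EuclideanSpace.single 2 1, ⟨hr, fun p q hpq => ?_⟩, ?_,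
    fun p q => ?_, ?_⟩
  · rw [disjoint_ball_ball_iff hr hr, dist_eq_norm]
    have h1 := rhombi_far D p q hpq
    have h2 : (r + r) ^ 2 ≤ ‖r • rhombi s v p - r • rhombi s v q‖ ^ 2 := by
      rw [hdist]
      nlinarith [sq_nonneg r]
    exact le_of_sq_le_sq h2 (norm_nonneg _)
  · simp
  · have h3 : inner ℝ (EuclideanSpace.single (2 : Fin 3) (1 : ℝ))
        (r • rhombi s v q - r • rhombi s v p) = 0 := by
      rw [EuclideanSpace.inner_single_left]
      simp [rhombi_height]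
    rw [h3, abs_zero]
    exact hh0
  · rintro ⟨f⟩
    have hadj : ∀ p q, p ≠ q → ‖rhombi s v p - rhombi s v q‖ ^ 2 = 4 → f p ≠ f q := by
      intro p q hpq h4
      refine f.valid ⟨hpq, ?_⟩
      rw [← Set.not_disjoint_iff_nonempty_inter, disjoint_closedBall_closedBall_iff hr.le hr.le,
        dist_eq_norm, not_lt]
      have h2 : ‖r • rhombi s v p - r • rhombi s v q‖ ^ 2 ≤ (r + r) ^ 2 := by
        rw [hdist, h4]
        nlinarith
      exact le_of_sq_le_sq h2 (by linarith)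
    have hrh : ∀ k : Fin 6, f (Sum.inl k.castSucc) = f (Sum.inl k.succ) := by
      intro k
      exact three_col _ _ (f (Sum.inr (k, 0))) (f (Sum.inr (k, 1)))
        (hadj _ _ (by simp) (lo_p D k 0)) (hadj _ _ (by simp) (lo_p D k 1))
        (hadj _ _ (by simp) (hi_p D k 0)) (hadj _ _ (by simp) (hi_p D k 1))
        (hadj _ _ (by simp) (p_p D k 0 1 (by decide)))
    exact hadj (Sum.inl 0) (Sum.inl 6) (by simp) (b_b s v)
      ((hrh 0).trans ((hrh 1).trans ((hrh 2).trans ((hrh 3).trans ((hrh 4).trans (hrh 5))))))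

end Pool.Agent.Results.MP_fada92_co.ThinSlabs
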