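import Pool.Agent.Lib_helper34.TSS.Defs

/-!
MP_fada92_co.ThinSlabs: the angle and the data of the ring (text of helper73, unchanged)
-/

set_option autoImplicit false

namespace Pool.Agent.Results.MP_fada92_co.ThinSlabs

open Metric

/-! ### A ring of tetrahedra -/

theorem cos_le_of_mem {a x : ℝ} (h0 : 0 ≤ a) (h1 : a ≤ x) (h2 : x ≤ 2 * Real.pi - a) :
    Real.cos x ≤ Real.cos a := by
  rcases le_or_gt x Real.pi with h | h
  · exact Real.cos_le_cos_of_nonneg_of_le_pi h0 h h1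
  · rw [← Real.cos_two_pi_sub x]
    exact Real.cos_le_cos_of_nonneg_of_le_pi h0 (by linarith) (by linarith)

/-- The angle `θ` between two consecutive edges; it closes the ring. -/
theorem exists_angle (N : ℕ) (hN : 30 ≤ N) : ∃ θ : ℝ, 0 < θ ∧ (N + 2) * θ ≤ 2 * Real.pi ∧
    √(5 / 2 + Real.cos θ - 3 / 2 * Real.cos θ ^ 2) * Real.cos (N * θ / 2) +
      √2 * √(Real.cos θ) * (1 + Real.cos θ) / 2 = 0 := by
  have hpi := Real.pi_pos
  have hpi2 := Real.pi_lt_d2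
  have hN' : (30 : ℝ) ≤ N := by exact_mod_cast hN
  have hcos : ∀ θ : ℝ, 0 ≤ θ → θ ≤ 2 * Real.pi / (N + 2) → 0.97 ≤ Real.cos θ := by
    intro θ h0 h1
    have h2 : 2 * Real.pi / (N + 2) ≤ 0.2 := by
      rw [div_le_iff₀ (by linarith)]
      nlinarith
    have h3 := Real.one_sub_sq_div_two_le_cos (x := θ)
    nlinarith
  have hle : 2 * Real.pi / (N + 3) ≤ 2 * Real.pi / (N + 2) :=
    div_le_div_of_nonneg_left (by positivity) (by positivity) (by linarith)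
  have hcont : ContinuousOn (fun θ : ℝ =>
      √(5 / 2 + Real.cos θ - 3 / 2 * Real.cos θ ^ 2) * Real.cos (N * θ / 2) +
      √2 * √(Real.cos θ) * (1 + Real.cos θ) / 2)
      (Set.Icc (2 * Real.pi / (N + 3)) (2 * Real.pi / (N + 2))) := by
    apply Continuous.continuousOn
    fun_prop
  have s2 : √2 ^ 2 = 2 := Real.sq_sqrt (by norm_num)
  have h1 : (0 : ℝ) ∈ Set.Icc
      (√(5 / 2 + Real.cos (2 * Real.pi / (N + 2)) - 3 / 2 * Real.cos (2 * Real.pi / (N + 2)) ^ 2) *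
        Real.cos (N * (2 * Real.pi / (N + 2)) / 2) +
      √2 * √(Real.cos (2 * Real.pi / (N + 2))) * (1 + Real.cos (2 * Real.pi / (N + 2))) / 2)
      (√(5 / 2 + Real.cos (2 * Real.pi / (N + 3)) - 3 / 2 * Real.cos (2 * Real.pi / (N + 3)) ^ 2) *
        Real.cos (N * (2 * Real.pi / (N + 3)) / 2) +
      √2 * √(Real.cos (2 * Real.pi / (N + 3))) * (1 + Real.cos (2 * Real.pi / (N + 3))) / 2) := by
    constructor
    · obtain ⟨t, ht⟩ : ∃ t, t = 2 * Real.pi / ((N : ℝ) + 2) := ⟨_, rfl⟩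
      have ht0 : 0 ≤ t := by rw [ht]; positivity
      have e1 : (N : ℝ) * t / 2 = Real.pi - t := by
        rw [ht]
        field_simp
        ring
      rw [← ht, e1, Real.cos_pi_sub]
      have c1 := hcos t ht0 ht.le
      have c2 := Real.cos_le_one t
      obtain ⟨C, hC⟩ : ∃ C, C = Real.cos t := ⟨_, rfl⟩
      rw [← hC] at c1 c2 ⊢
      have x2 : √(5 / 2 + C - 3 / 2 * C ^ 2) ^ 2 = 5 / 2 + C - 3 / 2 * C ^ 2 :=
        Real.sq_sqrt (by nlinarith)
      have w2 : √C ^ 2 = C := Real.sq_sqrt (by linarith)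
      have x0 := Real.sqrt_nonneg (5 / 2 + C - 3 / 2 * C ^ 2)
      have key : (√2 * √C * (1 + C) / 2) ^ 2 ≤ (√(5 / 2 + C - 3 / 2 * C ^ 2) * C) ^ 2 := by
        have : (√2 * √C * (1 + C) / 2) ^ 2 = √2 ^ 2 * √C ^ 2 * (1 + C) ^ 2 / 4 := by ring
        rw [this, mul_pow, x2, w2, s2]
        have f1 : 0 ≤ C * (1 - C) * (3 / 2 * C ^ 2 + C - 1 / 2) := by
          refine mul_nonneg (mul_nonneg (by linarith) (by linarith)) (by nlinarith)
        nlinarith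
      have := abs_le_of_sq_le_sq key (mul_nonneg x0 (by linarith))
      have h3 := le_abs_self (√2 * √C * (1 + C) / 2)
      linarith
    · obtain ⟨t, ht⟩ : ∃ t, t = 2 * Real.pi / ((N : ℝ) + 3) := ⟨_, rfl⟩
      have ht0 : 0 ≤ t := by rw [ht]; positivity
      have e1 : (N : ℝ) * t / 2 = Real.pi - 3 * (t / 2) := by
        rw [ht]
        field_simp
        ring
      rw [← ht, e1, Real.cos_pi_sub, Real.cos_three_mul]
      have c1 := hcos t ht0 (ht.le.trans hle)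
      have c2 := Real.cos_le_one t
      have ck : Real.cos t = 2 * Real.cos (t / 2) ^ 2 - 1 := by
        rw [← Real.cos_two_mul]
        congr 1
        ring
      obtain ⟨C, hC⟩ : ∃ C, C = Real.cos t := ⟨_, rfl⟩
      obtain ⟨k, hk⟩ : ∃ k, k = Real.cos (t / 2) := ⟨_, rfl⟩
      rw [← hC] at c1 c2 ck ⊢
      rw [← hk] at ck ⊢
      have x2 : √(5 / 2 + C - 3 / 2 * C ^ 2) ^ 2 = 5 / 2 + C - 3 / 2 * C ^ 2 :=
        Real.sq_sqrt (by nlinarith)
      have w2 : √C ^ 2 = C := Real.sq_sqrt (by linarith)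
      have y0 : 0 ≤ √2 * √C * (1 + C) / 2 := by positivity
      have k2 : k ^ 2 = (1 + C) / 2 := by linarith
      have key : (√(5 / 2 + C - 3 / 2 * C ^ 2) * (4 * k ^ 3 - 3 * k)) ^ 2 ≤
          (√2 * √C * (1 + C) / 2) ^ 2 := by
        have e3 : (√2 * √C * (1 + C) / 2) ^ 2 = √2 ^ 2 * √C ^ 2 * (1 + C) ^ 2 / 4 := by ring
        have e4 : (4 * k ^ 3 - 3 * k) ^ 2 = k ^ 2 * (4 * k ^ 2 - 3) ^ 2 := by ring
        rw [e3, mul_pow, x2, w2, s2, e4, k2]
        have f1 : 0 ≤ (1 + C) / 2 * ((1 - C) * -(6 * C ^ 3 - 4 * C ^ 2 - 15 / 2 * C + 5 / 2)) := by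
          refine mul_nonneg (by linarith) (mul_nonneg (by linarith) ?_)
          nlinarith [mul_nonneg (show 0 ≤ C by linarith) (show 0 ≤ 1 - C by linarith)]
        nlinarith
      have := abs_le_of_sq_le_sq key y0
      have h3 := le_abs_self (√(5 / 2 + C - 3 / 2 * C ^ 2) * (4 * k ^ 3 - 3 * k))
      linarith
  obtain ⟨θ, hθ, h2⟩ := intermediate_value_Icc' hle hcont h1
  refine ⟨θ, ?_, ?_, h2⟩
  · have : 0 < 2 * Real.pi / ((N : ℝ) + 3) := by positivity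
    exact this.trans_le hθ.1
  · have h3 := hθ.2
    rw [le_div_iff₀ (by positivity)] at h3
    linarith

/-- The ring: `N + 1` hinges at mutual angles `θ`, the radii `R ± c`, the heights `± (s ± ξ)`, and one
more ball at the distance `X` from the axis. -/
structure RingData (N : ℕ) (δ θ R c s ξ X : ℝ) : Prop where
  θ0 : 0 < θ
  θN : (N + 2) * θ ≤ 2 * Real.pi
  c0 : 0 < c
  cR : c < R
  s0 : 0 ≤ s
  X0 : 0 ≤ X
  e0 : c ^ 2 + s ^ 2 = 1
  e1 : 2 * (R + c) ^ 2 * (1 - Real.cos θ) + 4 * (s + ξ) ^ 2 = 4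
  e2 : 2 * (R - c) ^ 2 * (1 - Real.cos θ) + 4 * (s - ξ) ^ 2 = 4
  e3 : 4 * c ^ 2 + 2 * (R ^ 2 - c ^ 2) * (1 - Real.cos θ) + 4 * ξ ^ 2 = 4
  far : 1 ≤ (R - c) * Real.sin θ
  v1 : X ^ 2 + (R + c) ^ 2 + 2 * X * (R + c) * Real.cos (N * θ / 2) + (s + ξ) ^ 2 = 4
  v2 : X ^ 2 + (R - c) ^ 2 + 2 * X * (R - c) * Real.cos (N * θ / 2) + (s - ξ) ^ 2 = 4
  hs : s + |ξ| ≤ √2 / 2 + δ

end Pool.Agent.Results.MP_fada92_co.ThinSlabs
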