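import Mathlib

/-!
MP_fada92_co.ThinSlabs: definitions (text of helper73, unchanged)
-/

set_option autoImplicit false

namespace Pool.Agent.Results.MP_fada92_co.ThinSlabs

open Metric

/-- Real three-dimensional space. -/
abbrev E3 : Type := EuclideanSpace ℝ (Fin 3)

/-- The closed balls of radius `r > 0` with the centres `c i` form a packing: their interiors are
pairwise disjoint. -/
def IsPacking {ι : Type} (c : ι → E3) (r : ℝ) : Prop :=
  0 < r ∧ ∀ i j : ι, i ≠ j → Disjoint (ball (c i) r) (ball (c j) r)

/-- The contact graph: two different balls are adjacent if they meet. -/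
def contactGraph {ι : Type} (c : ι → E3) (r : ℝ) : SimpleGraph ι where
  Adj i j := i ≠ j ∧ (closedBall (c i) r ∩ closedBall (c j) r).Nonempty
  symm := ⟨fun i j h => ⟨h.1.symm, by rw [Set.inter_comm]; exact h.2⟩⟩
  loopless := ⟨fun i h => h.1 rfl⟩

/-- The centres lie in a slab of thickness `h` orthogonal to the vector `e`. -/
def InSlab {ι : Type} (c : ι → E3) (e : E3) (h : ℝ) : Prop :=
  ∀ i j : ι, |inner ℝ e (c j - c i)| ≤ h

/-- The orthogonal projection to the plane orthogonal to the unit vector `e`. -/
noncomputable def proj (e x : E3) : E3 := x - (inner ℝ e x) • e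

/-- The points `p i` and the segments between them for the edges of `G` are a straight-line
drawing of `G`: different vertices are different points, no vertex lies on an edge of which it is
not an end, and two edges meet at most in the point of a common end. -/
structure StraightDrawing {ι F : Type} [AddCommGroup F] [Module ℝ F] (G : SimpleGraph ι)
    (p : ι → F) : Prop where
  inj : Function.Injective p
  vertex : ∀ i j k : ι, G.Adj i j → p k ∈ segment ℝ (p i) (p j) → k = i ∨ k = j
  edge : ∀ i j k l : ι, G.Adj i j → G.Adj k l → ¬ (i = k ∧ j = l) → ¬ (i = l ∧ j = k) →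
    ∀ x : F, x ∈ segment ℝ (p i) (p j) → x ∈ segment ℝ (p k) (p l) →
      ∃ m : ι, (m = i ∨ m = j) ∧ (m = k ∨ m = l) ∧ x = p m

end Pool.Agent.Results.MP_fada92_co.ThinSlabs
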