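import Pool.Agent.Lib_helper34.TSS.D

/-!
MP_fada92_co.ThinSlabs: the ring of tetrahedra (text of helper73, unchanged)
-/

set_option autoImplicit false

namespace Pool.Agent.Results.MP_fada92_co.ThinSlabs

open Metric

theorem four_col' : ∀ x a b a' b' : Fin 4, a ≠ b → a' ≠ b' → a ≠ a' → a ≠ b' → b ≠ a' → b ≠ b' →
    ((x ≠ a ∧ x ≠ b) ↔ ¬ (x ≠ a' ∧ x ≠ b')) := by decide +kernel

/-- The point with the cylindrical coordinates `ρ`, `φ`, `z`. -/
noncomputable def cyl (ρ φ z : ℝ) : E3 := !₂[ρ * Real.cos φ, ρ * Real.sin φ, z]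

theorem cyl_dist (ρ φ z ρ' φ' z' : ℝ) : ‖cyl ρ φ z - cyl ρ' φ' z'‖ ^ 2 =
    ρ ^ 2 + ρ' ^ 2 - 2 * ρ * ρ' * Real.cos (φ - φ') + (z - z') ^ 2 := by
  rw [EuclideanSpace.real_norm_sq_eq, Fin.sum_univ_three, Real.cos_sub]
  simp only [cyl, PiLp.sub_apply]
  have h1 := Real.sin_sq_add_cos_sq φ
  have h2 := Real.sin_sq_add_cos_sq φ'
  simp
  linear_combination ρ ^ 2 * h1 + ρ' ^ 2 * h2

/-- `1` or `-1`. -/
def sg (b : Bool) : ℝ := if b then 1 else -1

theorem sg_sq (b : Bool) : sg b ^ 2 = 1 := by cases b <;> simp [sg]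

theorem sg_cases (b : Bool) : sg b = 1 ∨ sg b = -1 := by cases b <;> simp [sg]

/-- The centres. -/
noncomputable def tetra (N : ℕ) (θ R c s ξ X : ℝ) : Option (Fin (N + 1) × Bool) → E3
  | none => cyl (-X) 0 0
  | some (i, b) => cyl (R + sg b * c) (((i : ℕ) : ℝ) * θ - N * θ / 2)
      ((-1) ^ (i : ℕ) * (sg b * s + ξ))

section

variable {N : ℕ} {δ θ R c s ξ X : ℝ}

theorem pair_same (D : RingData N δ θ R c s ξ X) (i : Fin (N + 1)) :
    ‖tetra N θ R c s ξ X (some (i, true)) - tetra N θ R c s ξ X (some (i, false))‖ ^ 2 = 4 := by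
  simp only [tetra]
  rw [cyl_dist, sub_self, Real.cos_zero]
  have h1 : ((-1 : ℝ) ^ (i : ℕ)) ^ 2 = 1 := by rw [← pow_mul, mul_comm, pow_mul]; norm_num
  simp only [sg, if_true]
  simp only [Bool.false_eq_true, if_false]
  linear_combination (4 * s ^ 2) * h1 + 4 * D.e0

theorem pair_next (D : RingData N δ θ R c s ξ X) {i j : Fin (N + 1)} (hij : (j : ℕ) = i + 1)
    (b b' : Bool) :
    ‖tetra N θ R c s ξ X (some (i, b)) - tetra N θ R c s ξ X (some (j, b'))‖ ^ 2 = 4 := by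
  simp only [tetra]
  rw [cyl_dist]
  have h1 : ((-1 : ℝ) ^ (i : ℕ)) ^ 2 = 1 := by rw [← pow_mul, mul_comm, pow_mul]; norm_num
  have h2 : (-1 : ℝ) ^ (j : ℕ) = -(-1) ^ (i : ℕ) := by rw [hij, pow_succ]; ring
  have h3 : (((i : ℕ) : ℝ) * θ - N * θ / 2) - (((j : ℕ) : ℝ) * θ - N * θ / 2) = -θ := by
    rw [hij]; push_cast; ring
  rw [h2, h3, Real.cos_neg]
  have e1 := D.e1
  have e2 := D.e2
  have e3 := D.e3
  cases b <;> cases b' <;> simp only [sg, if_true, Bool.false_eq_true, if_false]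
  · linear_combination (4 * (s - ξ) ^ 2) * h1 + e2
  · linear_combination (4 * ξ ^ 2) * h1 + e3
  · linear_combination (4 * ξ ^ 2) * h1 + e3
  · linear_combination (4 * (s + ξ) ^ 2) * h1 + e1

theorem ends (D : RingData N δ θ R c s ξ X) {i : Fin (N + 1)} (hi : (i : ℕ) = 0 ∨ (i : ℕ) = N)
    (b : Bool) : ‖tetra N θ R c s ξ X none - tetra N θ R c s ξ X (some (i, b))‖ ^ 2 = 4 := by
  simp only [tetra]
  rw [cyl_dist]
  have h1 : ((-1 : ℝ) ^ (i : ℕ)) ^ 2 = 1 := by rw [← pow_mul, mul_comm, pow_mul]; norm_num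
  have h3 : Real.cos (0 - (((i : ℕ) : ℝ) * θ - N * θ / 2)) = Real.cos (N * θ / 2) := by
    rcases hi with h | h
    · rw [h]; congr 1; push_cast; ring
    · rw [h, ← Real.cos_neg]; congr 1; ring
  rw [h3]
  have e1 := D.v1
  have e2 := D.v2
  cases b <;> simp only [sg, if_true, Bool.false_eq_true, if_false]
  · linear_combination ((s - ξ) ^ 2) * h1 + e2
  · linear_combination ((s + ξ) ^ 2) * h1 + e1

theorem rad (D : RingData N δ θ R c s ξ X) (b : Bool) : R - c ≤ R + sg b * c := by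
  have := D.c0
  rcases sg_cases b with h | h <;> rw [h] <;> linarith

theorem far_none (D : RingData N δ θ R c s ξ X) (i : Fin (N + 1)) (b : Bool) :
    4 ≤ ‖tetra N θ R c s ξ X none - tetra N θ R c s ξ X (some (i, b))‖ ^ 2 := by
  have hend := ends D (i := 0) (Or.inl rfl) b
  simp only [tetra] at hend ⊢
  rw [cyl_dist] at hend ⊢
  have h1 : ((-1 : ℝ) ^ (i : ℕ)) ^ 2 = 1 := by rw [← pow_mul, mul_comm, pow_mul]; norm_num
  have hiN : ((i : ℕ) : ℝ) ≤ N := by
    have := i.2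
    exact_mod_cast (by omega : (i : ℕ) ≤ N)
  have hi0 : (0 : ℝ) ≤ ((i : ℕ) : ℝ) := Nat.cast_nonneg _
  have hN0 : (0 : ℝ) ≤ N := Nat.cast_nonneg _
  have hθ := D.θ0
  have hθN := D.θN
  have hcos : Real.cos (N * θ / 2) ≤ Real.cos (0 - (((i : ℕ) : ℝ) * θ - N * θ / 2)) := by
    rw [← Real.cos_abs (0 - (((i : ℕ) : ℝ) * θ - N * θ / 2))]
    refine Real.cos_le_cos_of_nonneg_of_le_pi (abs_nonneg _) (by linarith) ?_
    rw [abs_le]
    have p1 : ((i : ℕ) : ℝ) * θ ≤ N * θ := mul_le_mul_of_nonneg_right hiN hθ.le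
    have p2 : 0 ≤ ((i : ℕ) : ℝ) * θ := mul_nonneg hi0 hθ.le
    constructor <;> linarith
  have h4 : Real.cos (0 - (((0 : Fin (N + 1)) : ℕ) * θ - N * θ / 2)) = Real.cos (N * θ / 2) := by
    congr 1
    simp
  rw [h4] at hend
  have hρ : 0 < R + sg b * c := by
    have := rad D b
    have := D.cR
    linarith
  have hXρ : 0 ≤ X * (R + sg b * c) := mul_nonneg D.X0 hρ.le
  have h5 := mul_le_mul_of_nonneg_left hcos hXρ
  have h6 : (0 - (-1 : ℝ) ^ ((0 : Fin (N + 1)) : ℕ) * (sg b * s + ξ)) ^ 2 = (sg b * s + ξ) ^ 2 := by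
    rw [Fin.val_zero, pow_zero]
    ring
  have h7 : (0 - (-1 : ℝ) ^ (i : ℕ) * (sg b * s + ξ)) ^ 2 = (sg b * s + ξ) ^ 2 := by
    linear_combination ((sg b * s + ξ) ^ 2) * h1
  rw [h6] at hend
  rw [h7]
  linarith

theorem far_some (D : RingData N δ θ R c s ξ X) (i j : Fin (N + 1)) (b b' : Bool)
    (hij : (i : ℕ) + 2 ≤ j) :
    4 ≤ ‖tetra N θ R c s ξ X (some (i, b)) - tetra N θ R c s ξ X (some (j, b'))‖ ^ 2 := by
  simp only [tetra]
  rw [cyl_dist]
  have hθ := D.θ0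
  have hθN := D.θN
  have h1 : (((i : ℕ) : ℝ) * θ - N * θ / 2) - (((j : ℕ) : ℝ) * θ - N * θ / 2) =
      -((((j : ℕ) : ℝ) - ((i : ℕ) : ℝ)) * θ) := by ring
  rw [h1, Real.cos_neg]
  have hij' : ((i : ℕ) : ℝ) + 2 ≤ ((j : ℕ) : ℝ) := by exact_mod_cast hij
  have hjN : ((j : ℕ) : ℝ) ≤ N := by
    have := j.2
    exact_mod_cast (by omega : (j : ℕ) ≤ N)
  have hi0 : (0 : ℝ) ≤ ((i : ℕ) : ℝ) := Nat.cast_nonneg _
  have hcos : Real.cos ((((j : ℕ) : ℝ) - ((i : ℕ) : ℝ)) * θ) ≤ Real.cos (2 * θ) := by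
    refine cos_le_of_mem (by linarith) ?_ ?_
    · exact mul_le_mul_of_nonneg_right (by linarith) hθ.le
    · have : (((j : ℕ) : ℝ) - ((i : ℕ) : ℝ)) * θ ≤ N * θ :=
        mul_le_mul_of_nonneg_right (by linarith) hθ.le
      linarith
  rw [Real.cos_two_mul] at hcos
  have hs := Real.sin_sq_add_cos_sq θ
  have r1 := rad D b
  have r2 := rad D b'
  have r0 : 0 < R - c := by linarith [D.cR]
  have hf := D.far
  obtain ⟨ρ, hρ⟩ : ∃ ρ, ρ = R + sg b * c := ⟨_, rfl⟩
  obtain ⟨ρ', hρ'⟩ : ∃ ρ, ρ = R + sg b' * c := ⟨_, rfl⟩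
  rw [← hρ] at r1 ⊢
  rw [← hρ'] at r2 ⊢
  have p1 : (R - c) * (R - c) ≤ ρ * ρ' := mul_le_mul r1 r2 r0.le (by linarith)
  have p2 : 1 ≤ ((R - c) * Real.sin θ) ^ 2 := by nlinarith
  have p3 : (R - c) * (R - c) * Real.sin θ ^ 2 ≤ ρ * ρ' * Real.sin θ ^ 2 :=
    mul_le_mul_of_nonneg_right p1 (sq_nonneg _)
  have p4 : 0 ≤ ρ * ρ' := mul_nonneg (by linarith) (by linarith)
  have p5 := mul_le_mul_of_nonneg_left hcos p4
  have p6 : 0 ≤ (ρ - ρ') ^ 2 := sq_nonneg _
  nlinarith [sq_nonneg ((-1 : ℝ) ^ (i : ℕ) * (sg b * s + ξ) - (-1) ^ (j : ℕ) * (sg b' * s + ξ))]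

theorem tetra_far (D : RingData N δ θ R c s ξ X) (p q : Option (Fin (N + 1) × Bool))
    (hpq : p ≠ q) : 4 ≤ ‖tetra N θ R c s ξ X p - tetra N θ R c s ξ X q‖ ^ 2 := by
  rcases p with _ | ⟨i, b⟩
  · rcases q with _ | ⟨j, b'⟩
    · exact absurd rfl hpq
    · exact far_none D j b'
  · rcases q with _ | ⟨j, b'⟩
    · rw [norm_sub_rev]
      exact far_none D i b
    · rcases lt_trichotomy (i : ℕ) j with h | h | h
      · rcases Nat.lt_or_ge ((i : ℕ) + 1) j with h2 | h2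
        · exact far_some D i j b b' h2
        · rw [pair_next D (by omega) b b']
      · have hij : i = j := Fin.ext h
        subst hij
        have hb : b ≠ b' := fun h => hpq (by rw [h])
        cases b <;> cases b'
        · exact absurd rfl hb
        · rw [norm_sub_rev, pair_same D]
        · rw [pair_same D]
        · exact absurd rfl hb
      · rw [norm_sub_rev]
        rcases Nat.lt_or_ge ((j : ℕ) + 1) i with h2 | h2
        · exact far_some D j i b' b h2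
        · rw [pair_next D (by omega) b' b]

theorem tetra_height (D : RingData N δ θ R c s ξ X) (p : Option (Fin (N + 1) × Bool)) :
    |tetra N θ R c s ξ X p 2| ≤ √2 / 2 + δ := by
  have hs := D.hs
  have hs0 := D.s0
  have h0 := abs_nonneg ξ
  rcases p with _ | ⟨i, b⟩
  · simp only [tetra, cyl]
    simp
    linarith
  · simp only [tetra, cyl]
    have h1 : |(-1 : ℝ) ^ (i : ℕ)| = 1 := by rw [abs_pow, abs_neg, abs_one, one_pow]
    have h2 : |sg b| = 1 := by rcases sg_cases b with h | h <;> rw [h] <;> simp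
    have h3 : |sg b * s + ξ| ≤ s + |ξ| := by
      refine (abs_add_le _ _).trans ?_
      rw [abs_mul, h2, one_mul, abs_of_nonneg hs0]
    have h4 : |(-1 : ℝ) ^ (i : ℕ) * (sg b * s + ξ)| ≤ √2 / 2 + δ := by
      rw [abs_mul, h1, one_mul]
      exact h3.trans hs
    simpa using h4

theorem not_four {k : ℕ} (D : RingData (2 * k + 1) δ θ R c s ξ X)
    (f : Option (Fin (2 * k + 1 + 1) × Bool) → Fin 4)
    (hadj : ∀ p q, p ≠ q → ‖tetra (2 * k + 1) θ R c s ξ X p - tetra (2 * k + 1) θ R c s ξ X q‖ ^ 2 = 4 →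
      f p ≠ f q) : False := by
  have key : ∀ (n : ℕ) (hn : n < 2 * k + 1 + 1), ((f none ≠ f (some (⟨n, hn⟩, true)) ∧
      f none ≠ f (some (⟨n, hn⟩, false))) ↔ Even n) := by
    intro n
    induction n with
    | zero =>
      intro hn
      refine iff_of_true ⟨?_, ?_⟩ ⟨0, rfl⟩
      · exact hadj _ _ (by simp) (ends D (Or.inl rfl) true)
      · exact hadj _ _ (by simp) (ends D (Or.inl rfl) false)
    | succ n ih =>
      intro hn
      have h1 := ih (by omega)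
      have hne : (⟨n, by omega⟩ : Fin (2 * k + 1 + 1)) ≠ ⟨n + 1, hn⟩ := by
        intro h
        have := congrArg Fin.val h
        simp at this
      have h2 := four_col' (f none) (f (some (⟨n, by omega⟩, true))) (f (some (⟨n, by omega⟩, false)))
        (f (some (⟨n + 1, hn⟩, true))) (f (some (⟨n + 1, hn⟩, false)))
        (hadj _ _ (by simp) (pair_same D _)) (hadj _ _ (by simp) (pair_same D _))
        (hadj _ _ (by simp [hne]) (pair_next D rfl true true))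
        (hadj _ _ (by simp [hne]) (pair_next D rfl true false))
        (hadj _ _ (by simp [hne]) (pair_next D rfl false true))
        (hadj _ _ (by simp [hne]) (pair_next D rfl false false))
      rw [Nat.even_add_one, ← h1, h2, not_not]
  have h1 := key (2 * k + 1) (by omega)
  have h2 : ¬ Even (2 * k + 1) := by
    rw [Nat.not_even_iff_odd]
    exact ⟨k, rfl⟩
  refine h2 (h1.1 ⟨?_, ?_⟩)
  · exact hadj _ _ (by simp) (ends D (Or.inr rfl) true)
  · exact hadj _ _ (by simp) (ends D (Or.inr rfl) false)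

end

end Pool.Agent.Results.MP_fada92_co.ThinSlabs
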