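import Pool.Agent.Lib_helper34.TSS.D

/-!
MP_fada92_co.ThinSlabs: existence of the ring (text of helper73, unchanged)
-/

set_option autoImplicit false

namespace Pool.Agent.Results.MP_fada92_co.ThinSlabs

open Metric

theorem exists_ring (δ : ℝ) (hδ : 0 < δ) :
    ∃ (k : ℕ) (θ R c s ξ X : ℝ), RingData (2 * k + 1) δ θ R c s ξ X := by
  have hpi := Real.pi_pos
  obtain ⟨k, hk⟩ := exists_nat_gt (2 * Real.pi / δ + 30)
  have hk30 : 30 ≤ 2 * k + 1 := by
    have : (30 : ℝ) < k := by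
      have : 0 < 2 * Real.pi / δ := by positivity
      linarith
    have : 30 < k := by exact_mod_cast this
    omega
  obtain ⟨θ, θ0, θN, hclose⟩ := exists_angle (2 * k + 1) hk30
  have hkN : ((2 * k + 1 : ℕ) : ℝ) = 2 * k + 1 := by push_cast; ring
  have hk0 : (0 : ℝ) ≤ k := Nat.cast_nonneg k
  have hθδ : θ ≤ δ := by
    have h1 : 2 * Real.pi / δ < k := by linarith
    rw [div_lt_iff₀ hδ] at h1
    rw [hkN] at θN
    by_contra hcon
    push Not at hcon
    nlinarith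
  have hθ1 : θ ≤ 0.2 := by
    have h1 : (30 : ℝ) < k := by
      have : 0 < 2 * Real.pi / δ := by positivity
      linarith
    have hpi2 := Real.pi_lt_d2
    rw [hkN] at θN
    nlinarith
  obtain ⟨C, hC⟩ : ∃ C, C = Real.cos θ := ⟨_, rfl⟩
  obtain ⟨S, hS⟩ : ∃ S, S = Real.sin θ := ⟨_, rfl⟩
  have hS2 : S ^ 2 = 1 - C ^ 2 := by rw [hS, hC, Real.sin_sq]
  have S0 : 0 < S := by rw [hS]; exact Real.sin_pos_of_pos_of_lt_pi θ0 (by linarith [Real.pi_gt_three])
  have Sθ : S ≤ θ := by rw [hS]; exact (Real.sin_lt θ0).le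
  have C1 : 0.97 ≤ C := by
    have h3 := Real.one_sub_sq_div_two_le_cos (x := θ)
    rw [hC]
    nlinarith
  have C2 : C < 1 := by
    have : 0 < S ^ 2 := by positivity
    nlinarith
  obtain ⟨q, hq⟩ : ∃ q, q = √2 := ⟨_, rfl⟩
  have q2 : q ^ 2 = 2 := by rw [hq]; exact Real.sq_sqrt (by norm_num)
  have q0 : 0 < q := by rw [hq]; positivity
  have q1 : 1.414 ≤ q := by
    by_contra hcon
    push Not at hcon
    nlinarith
  obtain ⟨w, hw⟩ : ∃ w, w = √C := ⟨_, rfl⟩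
  have w2 : w ^ 2 = C := by rw [hw]; exact Real.sq_sqrt (by linarith)
  have w0 : 0 < w := by rw [hw]; exact Real.sqrt_pos.2 (by linarith)
  have w1 : 0.98 ≤ w := by
    by_contra hcon
    push Not at hcon
    nlinarith
  obtain ⟨c, hc⟩ : ∃ c, c = √(1 / (1 + C)) := ⟨_, rfl⟩
  have c0 : 0 < c := by rw [hc]; exact Real.sqrt_pos.2 (by positivity)
  have c2 : c ^ 2 * (1 + C) = 1 := by
    rw [hc, Real.sq_sqrt (by positivity)]
    field_simp
  obtain ⟨x, hx⟩ : ∃ x, x = √(5 / 2 + C - 3 / 2 * C ^ 2) := ⟨_, rfl⟩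
  have x2 : x ^ 2 = 5 / 2 + C - 3 / 2 * C ^ 2 := by
    rw [hx]
    exact Real.sq_sqrt (by nlinarith)
  have x0 : 0 ≤ x := by rw [hx]; exact Real.sqrt_nonneg _
  obtain ⟨R, hR⟩ : ∃ R, R = q * w / S := ⟨_, rfl⟩
  have RS : R * S = q * w := by rw [hR]; field_simp
  obtain ⟨ξ, hξ⟩ : ∃ ξ, ξ = -(q * (1 - C) / 2 / S) := ⟨_, rfl⟩
  have ξS : ξ * S = -(q * (1 - C) / 2) := by rw [hξ]; field_simp
  obtain ⟨X, hX⟩ : ∃ X, X = x / S := ⟨_, rfl⟩
  have XS : X * S = x := by rw [hX]; field_simp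
  obtain ⟨K, hK⟩ : ∃ K, K = Real.cos (((2 * k + 1 : ℕ) : ℝ) * θ / 2) := ⟨_, rfl⟩
  have hcl : x * K + q * w * (1 + C) / 2 = 0 := by
    rw [hx, hK, hq, hw, hC]
    exact hclose
  have hD : 0 < 1 - C := by linarith
  have F1 : R ^ 2 * (1 - C) = 2 * C * c ^ 2 := by
    have h1 : R ^ 2 * S ^ 2 = 2 * C := by rw [← mul_pow, RS, mul_pow, q2, w2]
    rw [hS2] at h1
    linear_combination (-(R ^ 2 * (1 - C))) * c2 + c ^ 2 * h1
  have F2 : ξ ^ 2 = (1 - C) * c ^ 2 / 2 := by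
    have h1 : ξ ^ 2 * S ^ 2 = (1 - C) ^ 2 / 2 := by
      rw [← mul_pow, ξS]
      linear_combination ((1 - C) ^ 2 / 4) * q2
    rw [hS2] at h1
    have h2 : (1 - C) * (ξ ^ 2 * (1 + C) - (1 - C) / 2) = 0 := by linear_combination h1
    have h3 : ξ ^ 2 * (1 + C) = (1 - C) / 2 := by
      rcases mul_eq_zero.1 h2 with h | h
      · linarith
      · linarith
    linear_combination c ^ 2 * h3 - ξ ^ 2 * c2
  have F3 : R * c * (1 - C) + 2 * (w * c) * ξ = 0 := by
    have h1 : (R * c * (1 - C) + 2 * (w * c) * ξ) * S = 0 := by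
      linear_combination (c * (1 - C)) * RS + (2 * (w * c)) * ξS
    rcases mul_eq_zero.1 h1 with h | h
    · exact h
    · exact absurd h S0.ne'
  have F6 : X ^ 2 = 3 + R ^ 2 * C - ξ ^ 2 := by
    have h1 : (X ^ 2 - (3 + R ^ 2 * C - ξ ^ 2)) * S ^ 2 = 0 := by
      have e1 : X ^ 2 * S ^ 2 = 5 / 2 + C - 3 / 2 * C ^ 2 := by rw [← mul_pow, XS, x2]
      have e2 : R ^ 2 * S ^ 2 = 2 * C := by rw [← mul_pow, RS, mul_pow, q2, w2]
      have e3 : ξ ^ 2 * S ^ 2 = (1 - C) ^ 2 / 2 := by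
        rw [← mul_pow, ξS]
        linear_combination ((1 - C) ^ 2 / 4) * q2
      linear_combination e1 - C * e2 + e3 - 3 * hS2
    rcases mul_eq_zero.1 h1 with h | h
    · linarith
    · exact absurd h (by positivity)
  have F7 : X * K = -(R * (1 + C) / 2) := by
    have h1 : (X * K + R * (1 + C) / 2) * S = 0 := by
      linear_combination K * XS + ((1 + C) / 2) * RS + hcl
    rcases mul_eq_zero.1 h1 with h | h
    · linarith
    · exact absurd h S0.ne'
  have cS : c * S ≤ 0.2 := by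
    have h1 : (c * S) ^ 2 ≤ 0.2 ^ 2 := by
      rw [mul_pow, hS2]
      have : c ^ 2 * (1 - C ^ 2) = 1 - C := by linear_combination (1 - C) * c2
      rw [this]
      norm_num
      linarith
    exact (abs_le_of_sq_le_sq h1 (by norm_num) |> le_trans (le_abs_self _))
  have hfar : 1 ≤ (R - c) * S := by
    have : (R - c) * S = q * w - c * S := by rw [sub_mul, RS]
    rw [this]
    have h1 : 1.414 * 0.98 ≤ q * w := mul_le_mul q1 w1 (by norm_num) q0.le
    norm_num at h1 cS ⊢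
    linarith
  have hcR : c < R := by
    by_contra hcon
    push Not at hcon
    have := mul_nonpos_of_nonpos_of_nonneg (sub_nonpos.2 hcon) S0.le
    linarith
  refine ⟨k, θ, R, c, w * c, ξ, X, θ0, θN, c0, hcR, by positivity, ?_, ?_, ?_, ?_, ?_, ?_, ?_, ?_, ?_⟩
  · rw [hX]; positivity
  · linear_combination c ^ 2 * w2 + c2
  · rw [← hC]
    linear_combination 2 * F1 + 4 * F2 + 4 * F3 + 4 * c ^ 2 * w2 + 4 * c2
  · rw [← hC]
    linear_combination 2 * F1 + 4 * F2 - 4 * F3 + 4 * c ^ 2 * w2 + 4 * c2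
  · rw [← hC]
    linear_combination 2 * F1 + 4 * F2 + 4 * c2
  · rw [← hS]
    exact hfar
  · rw [← hK]
    linear_combination F6 + F3 + c2 + c ^ 2 * w2 + 2 * (R + c) * F7
  · rw [← hK]
    linear_combination F6 - F3 + c2 + c ^ 2 * w2 + 2 * (R - c) * F7
  · have h1 : w * c ≤ √2 / 2 := by
      have h2 : (w * c) ^ 2 ≤ (√2 / 2) ^ 2 := by
        rw [← hq, div_pow, q2, mul_pow, w2]
        have := mul_nonneg (sq_nonneg c) hD.le
        linarith
      exact (abs_le_of_sq_le_sq h2 (by positivity) |> le_trans (le_abs_self _))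
    have h3 : |ξ| ≤ δ := by
      have h4 : ξ ^ 2 ≤ δ ^ 2 := by
        have h5 : ξ ^ 2 ≤ S ^ 2 := by
          rw [F2, hS2]
          have k1 : 0 ≤ c ^ 2 * C := mul_nonneg (sq_nonneg c) (by linarith)
          have k2 : c ^ 2 ≤ 1 := by linarith
          have k3 := mul_le_mul_of_nonneg_left k2 hD.le
          have k4 := mul_nonneg hD.le (show (0 : ℝ) ≤ C by linarith)
          linarith
        exact h5.trans (pow_le_pow_left₀ S0.le (Sθ.trans hθδ) 2)
      exact abs_le_of_sq_le_sq h4 hδ.le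
    linarith

end Pool.Agent.Results.MP_fada92_co.ThinSlabs
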