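import Pool.Agent.Lib_helper34.TSS.E
import Pool.Agent.Lib_helper34.TSS.G

/-!
MP_fada92_co.ThinSlabs: five colours needed (text of helper73, unchanged)
-/

set_option autoImplicit false

namespace Pool.Agent.Results.MP_fada92_co.ThinSlabs

open Metric

/-- In every slab thicker than `√2 r` there is a packing which needs five colours. -/
theorem five_needed (r h : ℝ) (hr : 0 < r) (hh0 : 0 ≤ h) (hh : 2 * r ^ 2 < h ^ 2) :
    ∃ (ι : Type) (_ : Finite ι) (c : ι → E3) (e : E3), IsPacking c r ∧ ‖e‖ = 1 ∧ InSlab c e h ∧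
      ¬ (contactGraph c r).Colorable 4 := by
  have s2 : √2 ^ 2 = 2 := Real.sq_sqrt (by norm_num)
  have s0 : 0 ≤ √2 := Real.sqrt_nonneg 2
  have h1 : √2 * r < h := by
    refine lt_of_pow_lt_pow_left₀ 2 hh0 ?_
    rw [mul_pow, s2]
    exact hh
  have hδ : 0 < (h / r - √2) / 2 := by
    have : √2 < h / r := by rw [lt_div_iff₀ hr]; exact h1
    linarith
  obtain ⟨k, θ, R, c, s, ξ, X, D⟩ := exists_ring _ hδ
  obtain ⟨T, hT⟩ : ∃ T, T = tetra (2 * k + 1) θ R c s ξ X := ⟨_, rfl⟩
  have hdist : ∀ p q, ‖r • T p - r • T q‖ ^ 2 = r ^ 2 * ‖T p - T q‖ ^ 2 := fun p q => by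
    rw [← smul_sub, norm_smul, mul_pow, Real.norm_eq_abs, sq_abs]
  refine ⟨_, inferInstance, fun p => r • T p, EuclideanSpace.single 2 1, ⟨hr, fun p q hpq => ?_⟩,
    ?_, fun p q => ?_, ?_⟩
  · rw [disjoint_ball_ball_iff hr hr, dist_eq_norm]
    have h1 := tetra_far D p q hpq
    rw [← hT] at h1
    have h2 : (r + r) ^ 2 ≤ ‖r • T p - r • T q‖ ^ 2 := by
      rw [hdist]
      nlinarith [sq_nonneg r]
    exact le_of_sq_le_sq h2 (norm_nonneg _)
  · simp
  · have h1 := abs_le.1 (tetra_height D p)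
    have h2 := abs_le.1 (tetra_height D q)
    rw [← hT] at h1 h2
    have h3 : inner ℝ (EuclideanSpace.single (2 : Fin 3) (1 : ℝ)) (r • T q - r • T p) =
        r * (T q 2 - T p 2) := by
      rw [EuclideanSpace.inner_single_left]
      simp
      ring
    rw [h3, abs_mul, abs_of_pos hr]
    have h4 : |T q 2 - T p 2| ≤ h / r := by
      rw [abs_le]
      constructor <;> linarith [h1.1, h1.2, h2.1, h2.2]
    calc r * |T q 2 - T p 2| ≤ r * (h / r) := mul_le_mul_of_nonneg_left h4 hr.le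
      _ = h := by field_simp
  · rintro ⟨f⟩
    refine not_four D f fun p q hpq h4 => ?_
    rw [← hT] at h4
    refine f.valid ⟨hpq, ?_⟩
    rw [← Set.not_disjoint_iff_nonempty_inter, disjoint_closedBall_closedBall_iff hr.le hr.le,
      dist_eq_norm, not_lt]
    have h2 : ‖r • T p - r • T q‖ ^ 2 ≤ (r + r) ^ 2 := by
      rw [hdist, h4]
      nlinarith
    exact le_of_sq_le_sq h2 (by linarith)

end Pool.Agent.Results.MP_fada92_co.ThinSlabs
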